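import Mathlib

/-!
# Periodic holomorphic functions on horizontal strips

Basic calculus for the KAM argument: the strip `|Im z| < ρ`, the predicate `PH ρ M f` (holomorphic,
`1`-periodic and bounded by `M` on the strip), and its stability under the usual operations.
-/

set_option autoImplicit false

namespace Pool.Agent.Herman

open Set Filter Topology MeasureTheory

/-- The open horizontal strip `|Im z| < ρ`. -/
def strip (ρ : ℝ) : Set ℂ := {z | |z.im| < ρ}

lemma mem_strip {ρ : ℝ} {z : ℂ} : z ∈ strip ρ ↔ |z.im| < ρ := Iff.rfl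

lemma isOpen_strip (ρ : ℝ) : IsOpen (strip ρ) :=
  isOpen_lt (continuous_abs.comp Complex.continuous_im) continuous_const

lemma strip_mono {ρ ρ' : ℝ} (h : ρ' ≤ ρ) : strip ρ' ⊆ strip ρ := fun _ hz =>
  lt_of_lt_of_le hz h

lemma add_real_mem_strip {ρ : ℝ} {z : ℂ} (hz : z ∈ strip ρ) (b : ℝ) : z + b ∈ strip ρ := by
  simpa [strip] using hz

lemma sub_real_mem_strip {ρ : ℝ} {z : ℂ} (hz : z ∈ strip ρ) (b : ℝ) : z - b ∈ strip ρ := by
  simpa [strip] using hz

lemma add_one_mem_strip {ρ : ℝ} {z : ℂ} (hz : z ∈ strip ρ) : z + 1 ∈ strip ρ := by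
  simpa [strip] using hz

lemma neg_mem_strip {ρ : ℝ} {z : ℂ} (hz : z ∈ strip ρ) : -z ∈ strip ρ := by
  simpa [strip] using hz

lemma real_mem_strip {ρ : ℝ} (hρ : 0 < ρ) (x : ℝ) : (x : ℂ) ∈ strip ρ := by
  simpa [strip] using hρ

lemma convex_strip (ρ : ℝ) : Convex ℝ (strip ρ) := by
  have : strip ρ = Complex.imLm ⁻¹' (Set.Ioo (-ρ) ρ) := by
    ext z; simp [strip, abs_lt]
  rw [this]
  exact (convex_Ioo _ _).linear_preimage _

/-- `f` is holomorphic, `1`-periodic and bounded by `M` on the strip `|Im z| < ρ`. -/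
structure PH (ρ M : ℝ) (f : ℂ → ℂ) : Prop where
  diff : DifferentiableOn ℂ f (strip ρ)
  per : ∀ z ∈ strip ρ, f (z + 1) = f z
  bdd : ∀ z ∈ strip ρ, ‖f z‖ ≤ M

namespace PH

variable {ρ M N : ℝ} {f g : ℂ → ℂ}

lemma nonneg (hf : PH ρ M f) (hρ : 0 < ρ) : 0 ≤ M :=
  le_trans (norm_nonneg _) (hf.bdd 0 (by simpa [strip] using hρ))

lemma mono (hf : PH ρ M f) {ρ' M' : ℝ} (h : ρ' ≤ ρ) (hM : M ≤ M') : PH ρ' M' f where
  diff := hf.diff.mono (strip_mono h)
  per z hz := hf.per z (strip_mono h hz)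
  bdd z hz := le_trans (hf.bdd z (strip_mono h hz)) hM

lemma congr (hf : PH ρ M f) (h : ∀ z ∈ strip ρ, g z = f z) : PH ρ M g where
  diff := hf.diff.congr h
  per z hz := by rw [h _ (add_one_mem_strip hz), h z hz, hf.per z hz]
  bdd z hz := by rw [h z hz]; exact hf.bdd z hz

lemma differentiableAt (hf : PH ρ M f) {z : ℂ} (hz : z ∈ strip ρ) : DifferentiableAt ℂ f z :=
  hf.diff.differentiableAt ((isOpen_strip ρ).mem_nhds hz)

lemma add (hf : PH ρ M f) (hg : PH ρ N g) : PH ρ (M + N) (fun z => f z + g z) where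
  diff := hf.diff.add hg.diff
  per z hz := by simp only [hf.per z hz, hg.per z hz]
  bdd z hz := le_trans (norm_add_le _ _) (add_le_add (hf.bdd z hz) (hg.bdd z hz))

lemma sub (hf : PH ρ M f) (hg : PH ρ N g) : PH ρ (M + N) (fun z => f z - g z) where
  diff := hf.diff.sub hg.diff
  per z hz := by simp only [hf.per z hz, hg.per z hz]
  bdd z hz := le_trans (norm_sub_le _ _) (add_le_add (hf.bdd z hz) (hg.bdd z hz))

lemma neg (hf : PH ρ M f) : PH ρ M (fun z => - f z) where
  diff := hf.diff.neg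
  per z hz := by simp only [hf.per z hz]
  bdd z hz := by rw [norm_neg]; exact hf.bdd z hz

lemma mul (hf : PH ρ M f) (hg : PH ρ N g) : PH ρ (M * N) (fun z => f z * g z) where
  diff := hf.diff.mul hg.diff
  per z hz := by simp only [hf.per z hz, hg.per z hz]
  bdd z hz := by
    rw [norm_mul]
    exact mul_le_mul (hf.bdd z hz) (hg.bdd z hz) (norm_nonneg _)
      (le_trans (norm_nonneg _) (hf.bdd z hz))

lemma const (ρ : ℝ) (c : ℂ) : PH ρ ‖c‖ (fun _ => c) where
  diff := differentiableOn_const c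
  per _ _ := rfl
  bdd _ _ := le_rfl

lemma const_mul (hf : PH ρ M f) (c : ℂ) : PH ρ (‖c‖ * M) (fun z => c * f z) :=
  (const ρ c).mul hf

lemma shift (hf : PH ρ M f) (b : ℝ) : PH ρ M (fun z => f (z + b)) where
  diff z hz := by
    have h1 : DifferentiableAt ℂ f (z + b) := hf.differentiableAt (add_real_mem_strip hz b)
    exact (h1.comp z (by fun_prop)).differentiableWithinAt
  per z hz := by
    have := hf.per (z + b) (add_real_mem_strip hz b)
    rw [show z + 1 + (b : ℂ) = z + b + 1 by ring]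
    exact this
  bdd z hz := hf.bdd _ (add_real_mem_strip hz b)

lemma shift_sub (hf : PH ρ M f) (b : ℝ) : PH ρ M (fun z => f (z - b)) := by
  have := hf.shift (-b)
  refine this.congr fun z _ => ?_
  push_cast
  rw [← sub_eq_add_neg]

lemma per_sub (hf : PH ρ M f) {z : ℂ} (hz : z ∈ strip ρ) : f (z - 1) = f z := by
  have h : z - 1 ∈ strip ρ := by simpa [strip] using hz
  have := hf.per (z - 1) h
  rw [sub_add_cancel] at this
  exact this.symm

/-- Reflection. -/
lemma refl (hf : PH ρ M f) : PH ρ M (fun z => f (-z)) where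
  diff z hz := by
    have h1 : DifferentiableAt ℂ f (-z) := hf.differentiableAt (neg_mem_strip hz)
    exact (h1.comp z (by fun_prop)).differentiableWithinAt
  per z hz := by
    rw [show -(z + 1) = -z - 1 by ring]
    exact hf.per_sub (neg_mem_strip hz)
  bdd z hz := hf.bdd _ (neg_mem_strip hz)

/-- Cauchy estimate. -/
lemma norm_deriv_le (hf : PH ρ M f) {δ : ℝ} (hδ : 0 < δ) {z : ℂ} (hz : z ∈ strip (ρ - δ)) :
    ‖deriv f z‖ ≤ M / δ := by
  have hz' : |z.im| < ρ - δ := hz
  have hρ : 0 < ρ := by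
    have := abs_nonneg z.im
    linarith
  have hM : 0 ≤ M := hf.nonneg hρ
  -- use all radii smaller than `δ`
  have key : ∀ r, 0 < r → r < δ → ‖deriv f z‖ ≤ M / r := by
    intro r hr hrδ
    have hball : Metric.closedBall z r ⊆ strip ρ := by
      intro w hw
      have h1 : |w.im - z.im| ≤ r := by
        have h2 := Complex.abs_im_le_norm (w - z)
        rw [Complex.sub_im] at h2
        rw [Metric.mem_closedBall, dist_eq_norm] at hw
        linarith
      have h3 : |w.im| ≤ |w.im - z.im| + |z.im| := by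
        have := abs_add_le (w.im - z.im) z.im
        rwa [sub_add_cancel] at this
      show |w.im| < ρ
      linarith
    apply Complex.norm_deriv_le_of_forall_mem_sphere_norm_le hr
    · refine ⟨hf.diff.mono (Metric.ball_subset_closedBall.trans hball), ?_⟩
      rw [closure_ball z hr.ne']
      exact hf.diff.continuousOn.mono hball
    · intro w hw
      exact hf.bdd w (hball (Metric.sphere_subset_closedBall hw))
  have hlim : Tendsto (fun r : ℝ => M / r) (𝓝[<] δ) (𝓝 (M / δ)) := by
    apply (tendsto_const_nhds.div tendsto_id hδ.ne').mono_left nhdsWithin_le_nhds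
  refine ge_of_tendsto hlim ?_
  have h1 : ∀ᶠ r in 𝓝[<] δ, 0 < r := by
    apply eventually_nhdsWithin_of_eventually_nhds
    exact lt_mem_nhds hδ
  have h2 : ∀ᶠ r in 𝓝[<] δ, r < δ := eventually_mem_nhdsWithin
  filter_upwards [h1, h2] with r hr hrδ using key r hr hrδ

lemma deriv (hf : PH ρ M f) {δ : ℝ} (hδ : 0 < δ) : PH (ρ - δ) (M / δ) (deriv f) where
  diff := (hf.diff.deriv (isOpen_strip ρ)).mono (strip_mono (by linarith))
  per z hz := by
    have hz' : z ∈ strip ρ := strip_mono (by linarith) hz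
    have : (fun w => f (w + 1)) =ᶠ[𝓝 z] f := by
      filter_upwards [(isOpen_strip ρ).mem_nhds hz'] with w hw using hf.per w hw
    have h2 := this.deriv_eq
    rw [deriv_comp_add_const] at h2
    exact h2
  bdd z hz := hf.norm_deriv_le hδ hz

/-- Mean value inequality for real shifts. -/
lemma norm_shift_sub_shift_le (hf : PH ρ M f) {δ : ℝ} (hδ : 0 < δ) {z : ℂ}
    (hz : z ∈ strip (ρ - δ)) (a b : ℝ) : ‖f (z + a) - f (z + b)‖ ≤ M / δ * |a - b| := by
  have h1 := (convex_strip (ρ - δ)).norm_image_sub_le_of_norm_deriv_le (𝕜 := ℂ) (f := f)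
    (C := M / δ) (x := z + b) (y := z + a)
    (fun w hw => hf.differentiableAt (strip_mono (by linarith) hw))
    (fun w hw => hf.norm_deriv_le hδ hw) (add_real_mem_strip hz b) (add_real_mem_strip hz a)
  refine h1.trans_eq ?_
  congr 1
  rw [show z + (a : ℂ) - (z + (b : ℂ)) = ((a - b : ℝ) : ℂ) by push_cast; ring]
  rw [Complex.norm_real, Real.norm_eq_abs]

lemma inv (hf : PH ρ M f) {m : ℝ} (hm : 0 < m) (h : ∀ z ∈ strip ρ, m ≤ ‖f z‖) :
    PH ρ m⁻¹ (fun z => (f z)⁻¹) where
  diff := hf.diff.inv fun z hz h0 => by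
    have := h z hz
    rw [h0, norm_zero] at this
    linarith
  per z hz := by simp only [hf.per z hz]
  bdd z hz := by
    rw [norm_inv]
    exact inv_anti₀ hm (h z hz)

lemma continuousOn (hf : PH ρ M f) : ContinuousOn f (strip ρ) := hf.diff.continuousOn

lemma continuous_line (hf : PH ρ M f) {y : ℝ} (hy : |y| < ρ) :
    Continuous (fun x : ℝ => f (x + y * Complex.I)) := by
  apply hf.continuousOn.comp_continuous (by fun_prop)
  intro x
  simpa [strip] using hy

lemma continuous_real (hf : PH ρ M f) (hρ : 0 < ρ) : Continuous (fun x : ℝ => f x) := by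
  have := hf.continuous_line (y := 0) (by simpa using hρ)
  simpa using this

end PH

/-- The mean over one period. -/
noncomputable def mean (f : ℂ → ℂ) : ℂ := ∫ x in (0 : ℝ)..1, f x

lemma norm_mean_le {ρ M : ℝ} {f : ℂ → ℂ} (hf : PH ρ M f) (hρ : 0 < ρ) : ‖mean f‖ ≤ M := by
  have := intervalIntegral.norm_integral_le_of_norm_le_const (a := (0 : ℝ)) (b := 1)
    (f := fun x : ℝ => f x) (C := M) (fun x _ => hf.bdd x (real_mem_strip hρ x))
  simpa [mean] using this

lemma mean_add {ρ M N : ℝ} {f g : ℂ → ℂ} (hf : PH ρ M f) (hg : PH ρ N g) (hρ : 0 < ρ) :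
    mean (fun z => f z + g z) = mean f + mean g := by
  unfold mean
  rw [intervalIntegral.integral_add]
  · exact (hf.continuous_real hρ).intervalIntegrable _ _
  · exact (hg.continuous_real hρ).intervalIntegrable _ _

lemma mean_const_mul (c : ℂ) (f : ℂ → ℂ) : mean (fun z => c * f z) = c * mean f := by
  unfold mean
  rw [intervalIntegral.integral_const_mul]

end Pool.Agent.Herman
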