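import Mathlib

/-!
# The unperturbed equation near a symmetric point

The power series solution of `U' (z) = U (-z) ^ 2`, `U 0 = p = exp (i π / 3)`, on the unit disc.
-/

set_option autoImplicit false

namespace Pool.Agent.Herman

open Set Filter Topology MeasureTheory
open scoped Real NNReal

/-- Uniqueness for the system `u' = v ^ 2`, `v' = - u ^ 2`. -/
lemma pair_unique {O : Set ℂ} (hO : IsOpen O) (hc : IsPreconnected O) {u v u₁ v₁ : ℂ → ℂ}
    (hu : ∀ z ∈ O, HasDerivAt u (v z ^ 2) z) (hv : ∀ z ∈ O, HasDerivAt v (-(u z ^ 2)) z)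
    (hu₁ : ∀ z ∈ O, HasDerivAt u₁ (v₁ z ^ 2) z) (hv₁ : ∀ z ∈ O, HasDerivAt v₁ (-(u₁ z ^ 2)) z)
    {z₀ : ℂ} (hz₀ : z₀ ∈ O) (h1 : u z₀ = u₁ z₀) (h2 : v z₀ = v₁ z₀) :
    ∀ z ∈ O, u z = u₁ z ∧ v z = v₁ z := by
  -- the vector field
  set F : ℂ × ℂ → ℂ × ℂ := fun p => (p.2 ^ 2, -(p.1 ^ 2)) with hF
  have hFs : ContDiff ℝ 1 F := by
    rw [hF]
    fun_prop
  obtain ⟨K, s, hs, hK⟩ := (hFs.contDiffAt (x := (u z₀, v z₀))).exists_lipschitzOnWith
  set f : ℝ → ℂ × ℂ := fun t => (u (z₀ + t), v (z₀ + t)) with hf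
  set g : ℝ → ℂ × ℂ := fun t => (u₁ (z₀ + t), v₁ (z₀ + t)) with hg
  have hcont : Continuous (fun t : ℝ => z₀ + (t : ℂ)) := by fun_prop
  have hmem : ∀ᶠ t : ℝ in 𝓝 0, z₀ + (t : ℂ) ∈ O := by
    have : Tendsto (fun t : ℝ => z₀ + (t : ℂ)) (𝓝 0) (𝓝 z₀) := by
      have := hcont.tendsto 0
      simpa using this
    exact this.eventually (hO.mem_nhds hz₀)
  have aux : ∀ (a b : ℂ → ℂ), (∀ z ∈ O, HasDerivAt a (b z ^ 2) z) →
      (∀ z ∈ O, HasDerivAt b (-(a z ^ 2)) z) → ∀ t : ℝ, z₀ + (t : ℂ) ∈ O →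
      HasDerivAt (fun t : ℝ => (a (z₀ + t), b (z₀ + t))) (F (a (z₀ + t), b (z₀ + t))) t := by
    intro a b ha hb t ht
    have a1 : HasDerivAt (fun w : ℂ => a (z₀ + w)) (b (z₀ + t) ^ 2) (t : ℂ) :=
      (ha _ ht).comp_const_add z₀ (t : ℂ)
    have b1 : HasDerivAt (fun w : ℂ => b (z₀ + w)) (-(a (z₀ + t) ^ 2)) (t : ℂ) :=
      (hb _ ht).comp_const_add z₀ (t : ℂ)
    exact a1.comp_ofReal.prodMk b1.comp_ofReal
  have huc : ContinuousAt (fun t : ℝ => f t) 0 := by
    have h0 : z₀ + ((0 : ℝ) : ℂ) ∈ O := by simpa using hz₀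
    exact (aux u v hu hv 0 h0).continuousAt
  have hgc : ContinuousAt (fun t : ℝ => g t) 0 := by
    have h0 : z₀ + ((0 : ℝ) : ℂ) ∈ O := by simpa using hz₀
    exact (aux u₁ v₁ hu₁ hv₁ 0 h0).continuousAt
  have hf0 : f 0 = (u z₀, v z₀) := by simp [hf]
  have hg0 : g 0 = (u z₀, v z₀) := by simp [hg, h1, h2]
  have e1 : ∀ᶠ t in 𝓝 (0 : ℝ), HasDerivAt f (F (f t)) t ∧ f t ∈ s := by
    have hs' : s ∈ 𝓝 (f 0) := by rw [hf0]; exact hs
    filter_upwards [hmem, huc.eventually hs'] with t ht hts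
    exact ⟨aux u v hu hv t ht, hts⟩
  have e2 : ∀ᶠ t in 𝓝 (0 : ℝ), HasDerivAt g (F (g t)) t ∧ g t ∈ s := by
    have hs' : s ∈ 𝓝 (g 0) := by rw [hg0]; exact hs
    filter_upwards [hmem, hgc.eventually hs'] with t ht hts
    exact ⟨aux u₁ v₁ hu₁ hv₁ t ht, hts⟩
  have key : f =ᶠ[𝓝 0] g :=
    ODE_solution_unique_of_eventually (v := fun _ => F) (s := fun _ => s) (K := K)
      (Eventually.of_forall fun _ => hK) e1 e2 (by rw [hf0, hg0])
  -- identity theorem
  have hfreq : ∃ᶠ z in 𝓝[≠] z₀, u z = u₁ z ∧ v z = v₁ z := by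
    have ht : Tendsto (fun t : ℝ => z₀ + (t : ℂ)) (𝓝[≠] 0) (𝓝[≠] z₀) := by
      apply tendsto_nhdsWithin_of_tendsto_nhds_of_eventually_within
      · have := hcont.tendsto 0
        simp only [Complex.ofReal_zero, add_zero] at this
        exact this.mono_left nhdsWithin_le_nhds
      · filter_upwards [self_mem_nhdsWithin] with t ht h
        apply ht
        have h' : z₀ + (t : ℂ) = z₀ := h
        have : (t : ℂ) = 0 := by simpa using h'
        exact_mod_cast this
    apply ht.frequently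
    have h3 : ∀ᶠ t in 𝓝[≠] (0 : ℝ), f t = g t := key.filter_mono nhdsWithin_le_nhds
    have h4 : ∀ᶠ t : ℝ in 𝓝[≠] (0 : ℝ), u (z₀ + (t : ℂ)) = u₁ (z₀ + (t : ℂ)) ∧
        v (z₀ + (t : ℂ)) = v₁ (z₀ + (t : ℂ)) := by
      filter_upwards [h3] with t ht
      exact Prod.ext_iff.mp ht
    exact h4.frequently
  have an : ∀ {a b : ℂ → ℂ}, (∀ z ∈ O, HasDerivAt a (b z) z) → AnalyticOnNhd ℂ a O := by
    intro a b ha
    exact DifferentiableOn.analyticOnNhd
      (fun z hz => (ha z hz).differentiableAt.differentiableWithinAt) hO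
  have r1 := (an hu).eqOn_of_preconnected_of_frequently_eq (an hu₁) hc hz₀
    (hfreq.mono fun z hz => hz.1)
  have r2 := (an hv).eqOn_of_preconnected_of_frequently_eq (an hv₁) hc hz₀
    (hfreq.mono fun z hz => hz.2)
  exact fun z hz => ⟨r1 hz, r2 hz⟩

/-- The initial value `exp (i π / 3)`. -/
noncomputable def pp : ℂ := ⟨1 / 2, √3 / 2⟩

lemma pp_sq : pp ^ 2 = pp - 1 := by
  have h3 : √3 * √3 = 3 := Real.mul_self_sqrt (by norm_num)
  rw [sq]
  apply Complex.ext
  · simp [pp]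
    nlinarith
  · simp [pp]
    ring

lemma pp_cube : pp ^ 3 = -1 := by
  rw [pow_succ, pp_sq]
  have := pp_sq
  rw [sq] at this
  linear_combination this

lemma norm_pp : ‖pp‖ = 1 := by
  have h3 : √3 * √3 = 3 := Real.mul_self_sqrt (by norm_num)
  rw [← sq_eq_sq₀ (norm_nonneg _) (by norm_num), ← Complex.normSq_eq_norm_sq, Complex.normSq_apply]
  simp only [pp]
  nlinarith

/-- Coefficients of the power series solution. -/
noncomputable def co : ℕ → ℂ
  | 0 => pp
  | n + 1 => (-1) ^ n / (n + 1) * ∑ i : Fin (n + 1), co i * co (n - i)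
decreasing_by
  all_goals
    have := i.isLt
    omega

lemma co_zero : co 0 = pp := by rw [co]

lemma co_succ (n : ℕ) :
    co (n + 1) = (-1) ^ n / (n + 1) * ∑ i ∈ Finset.range (n + 1), co i * co (n - i) := by
  rw [co, Finset.sum_range (fun i => co i * co (n - i))]

lemma norm_co_le (n : ℕ) : ‖co n‖ ≤ 1 := by
  induction n using Nat.strong_induction_on with
  | _ n ih =>
    rcases n with _ | n
    · rw [co_zero, norm_pp]
    · rw [co_succ, norm_mul, norm_div, norm_pow, norm_neg, norm_one, one_pow]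
      have h1 : ‖∑ i ∈ Finset.range (n + 1), co i * co (n - i)‖ ≤ n + 1 := by
        refine (norm_sum_le _ _).trans ?_
        have : ∀ i ∈ Finset.range (n + 1), ‖co i * co (n - i)‖ ≤ 1 := by
          intro i hi
          rw [Finset.mem_range] at hi
          rw [norm_mul]
          exact mul_le_one₀ (ih i (by omega)) (norm_nonneg _) (ih (n - i) (by omega))
        refine (Finset.sum_le_sum this).trans ?_
        simp
      have h2 : ‖((n : ℂ) + 1)‖ = (n : ℝ) + 1 := by
        have : ((n : ℂ) + 1) = ((n + 1 : ℝ) : ℂ) := by push_cast; ring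
        rw [this, Complex.norm_real, Real.norm_eq_abs, abs_of_pos (by positivity)]
      rw [h2, one_div, inv_mul_le_iff₀ (by positivity), mul_one]
      exact h1

lemma co_one : co 1 = pp - 1 := by
  have := co_succ 0
  simp [co_zero] at this
  rw [this, ← pp_sq, sq]

lemma co_two : co 2 = 1 := by
  have h := co_succ 1
  simp [Finset.sum_range_succ, co_zero, co_one] at h
  rw [h]
  have h3 := pp_sq
  linear_combination (-1 : ℂ) * h3

lemma co_three : co 3 = pp / 3 := by
  have h := co_succ 2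
  simp [Finset.sum_range_succ, co_zero, co_one, co_two] at h
  rw [h]
  have h3 := pp_sq
  linear_combination (1 / 3 : ℂ) * h3

/-- The power series solution. -/
noncomputable def uu (z : ℂ) : ℂ := ∑' n : ℕ, co n * z ^ n

lemma summable_co {z : ℂ} (hz : ‖z‖ < 1) : Summable (fun n => ‖co n * z ^ n‖) := by
  apply Summable.of_nonneg_of_le (fun n => norm_nonneg _) (fun n => ?_)
    (summable_geometric_of_lt_one (norm_nonneg z) hz)
  rw [norm_mul, norm_pow]
  exact mul_le_of_le_one_left (by positivity) (norm_co_le n)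

lemma hasDerivAt_uu {z : ℂ} (hz : ‖z‖ < 1) : HasDerivAt uu (uu (-z) ^ 2) z := by
  obtain ⟨r, hzr, hr1⟩ := exists_between hz
  have hr0 : 0 < r := lt_of_le_of_lt (norm_nonneg z) hzr
  have hd : HasDerivAt uu (∑' n : ℕ, co n * (n * z ^ (n - 1))) z := by
    have hu : Summable (fun n : ℕ => (n : ℝ) * r ^ (n - 1)) := by
      have h1 : Summable (fun n : ℕ => (n : ℝ) ^ 1 * r ^ n) :=
        summable_pow_mul_geometric_of_norm_lt_one 1 (by rwa [Real.norm_eq_abs, abs_of_pos hr0])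
      have h2 := h1.mul_left r⁻¹
      refine h2.congr fun n => ?_
      rcases n with _ | n
      · simp
      · rw [Nat.add_sub_cancel, pow_one, pow_succ r n]
        field_simp
    have := hasDerivAt_tsum_of_isPreconnected (𝕜 := ℂ) (g := fun n z => co n * z ^ n)
      (g' := fun n z => co n * (n * z ^ (n - 1))) (t := Metric.ball 0 r) (y₀ := 0) (y := z) hu
      Metric.isOpen_ball (convex_ball _ _).isPreconnected (fun n y _ => by
        exact (hasDerivAt_pow n y).const_mul (co n))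
      (fun n y hy => by
        have hy' : ‖y‖ ≤ r := by
          rw [Metric.mem_ball, dist_zero_right] at hy
          exact hy.le
        rw [norm_mul, norm_mul, norm_pow, Complex.norm_natCast]
        calc ‖co n‖ * ((n : ℝ) * ‖y‖ ^ (n - 1)) ≤ 1 * ((n : ℝ) * r ^ (n - 1)) := by
              apply mul_le_mul (norm_co_le n) _ (by positivity) (by norm_num)
              gcongr
          _ = _ := one_mul _)
      (Metric.mem_ball_self hr0) (summable_co (by simp)).of_norm
      (by rw [Metric.mem_ball, dist_zero_right]; exact hzr)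
    exact this
  refine hd.congr_deriv ?_
  have hz' : ‖-z‖ < 1 := by rwa [norm_neg]
  have hsq : uu (-z) ^ 2 = ∑' n : ℕ, ∑ k ∈ Finset.range (n + 1),
      (co k * (-z) ^ k) * (co (n - k) * (-z) ^ (n - k)) := by
    rw [sq]
    exact tsum_mul_tsum_eq_tsum_sum_range_of_summable_norm (summable_co hz') (summable_co hz')
  have hterm : ∀ n : ℕ, ∑ k ∈ Finset.range (n + 1),
      (co k * (-z) ^ k) * (co (n - k) * (-z) ^ (n - k)) = co (n + 1) * ((n + 1 : ℕ) * z ^ n) := by
    intro n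
    have e1 : ∀ k ∈ Finset.range (n + 1), (co k * (-z) ^ k) * (co (n - k) * (-z) ^ (n - k)) =
        (-z) ^ n * (co k * co (n - k)) := by
      intro k hk
      rw [Finset.mem_range] at hk
      have e2 : (-z) ^ n = (-z) ^ k * (-z) ^ (n - k) := by
        rw [← pow_add]; congr 1; omega
      rw [e2]; ring
    rw [Finset.sum_congr rfl e1, ← Finset.mul_sum, co_succ, neg_pow z n]
    have hn : ((n : ℂ) + 1) ≠ 0 := by exact_mod_cast Nat.succ_ne_zero n
    push_cast
    field_simp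
  rw [hsq, tsum_congr hterm]
  have hsum : Summable (fun n : ℕ => co n * (n * z ^ (n - 1))) := by
    have h1 : Summable (fun n : ℕ => (n : ℝ) ^ 1 * r ^ n) :=
      summable_pow_mul_geometric_of_norm_lt_one 1 (by rwa [Real.norm_eq_abs, abs_of_pos hr0])
    have h2 := h1.mul_left r⁻¹
    apply Summable.of_norm_bounded h2
    intro n
    rcases n with _ | n
    · simp
    · rw [norm_mul, norm_mul, norm_pow, Complex.norm_natCast, Nat.add_sub_cancel]
      calc ‖co (n + 1)‖ * (((n + 1 : ℕ) : ℝ) * ‖z‖ ^ n) ≤ 1 * (((n + 1 : ℕ) : ℝ) * r ^ n) := by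
            apply mul_le_mul (norm_co_le _) _ (by positivity) (by norm_num)
            gcongr
        _ = r⁻¹ * (((n + 1 : ℕ) : ℝ) ^ 1 * r ^ (n + 1)) := by
            rw [pow_one, pow_succ r n]; field_simp
  rw [hsum.tsum_eq_zero_add]
  simp

/-- Taylor remainder. -/
lemma norm_uu_sub_taylor {z : ℂ} (hz : ‖z‖ < 1) (k : ℕ) :
    ‖uu z - ∑ n ∈ Finset.range k, co n * z ^ n‖ ≤ ‖z‖ ^ k / (1 - ‖z‖) := by
  have hs := (summable_co hz).of_norm
  have h1 := hs.sum_add_tsum_nat_add k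
  have h2 : uu z - ∑ n ∈ Finset.range k, co n * z ^ n = ∑' n : ℕ, co (n + k) * z ^ (n + k) := by
    unfold uu
    rw [← h1]; ring
  rw [h2]
  have hg := (hasSum_geometric_of_lt_one (norm_nonneg z) hz).mul_left (‖z‖ ^ k)
  have := tsum_of_norm_bounded (f := fun n : ℕ => co (n + k) * z ^ (n + k)) hg (fun n => by
    rw [norm_mul, norm_pow, pow_add]
    calc ‖co (n + k)‖ * (‖z‖ ^ n * ‖z‖ ^ k) ≤ 1 * (‖z‖ ^ n * ‖z‖ ^ k) := by
          apply mul_le_mul_of_nonneg_right (norm_co_le _) (by positivity)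
      _ = _ := by ring)
  rwa [← div_eq_mul_inv] at this

end Pool.Agent.Herman
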