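import Mathlib
import Pool.Agent.Herman.Series

/-!
# The crossing time `t₀` (one twelfth of the period)
-/

set_option autoImplicit false

namespace Pool.Agent.Herman

open Set Filter Topology MeasureTheory
open scoped Real NNReal ComplexConjugate

lemma uu_zero : uu 0 = pp := by
  unfold uu
  rw [tsum_eq_single 0]
  · simp [co_zero]
  · intro n hn
    simp [hn]

lemma hasDerivAt_uu_neg {z : ℂ} (hz : ‖z‖ < 1) :
    HasDerivAt (fun w => uu (-w)) (-(uu z ^ 2)) z := by
  have h1 := hasDerivAt_uu (z := -z) (by rwa [norm_neg])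
  rw [neg_neg] at h1
  have := h1.comp z (_root_.hasDerivAt_neg z)
  simpa [Function.comp_def] using this

lemma uu_conserved {z : ℂ} (hz : ‖z‖ < 1) : uu z ^ 3 + uu (-z) ^ 3 = -2 := by
  have hd : ∀ w ∈ Metric.ball (0 : ℂ) 1, HasDerivAt (fun w => uu w ^ 3 + uu (-w) ^ 3) 0 w := by
    intro w hw
    have hw' : ‖w‖ < 1 := by rwa [Metric.mem_ball, dist_zero_right] at hw
    have h1 := (hasDerivAt_uu hw').pow 3
    have h2 := (hasDerivAt_uu_neg hw').pow 3
    refine (h1.add h2).congr_deriv ?_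
    push_cast
    ring
  have h1 : (fun w => uu w ^ 3 + uu (-w) ^ 3) z = (fun w => uu w ^ 3 + uu (-w) ^ 3) 0 := by
    apply Metric.isOpen_ball.is_const_of_deriv_eq_zero (convex_ball (0 : ℂ) 1).isPreconnected
      (fun w hw => (hd w hw).differentiableAt.differentiableWithinAt)
      (fun w hw => (hd w hw).deriv)
    · rwa [Metric.mem_ball, dist_zero_right]
    · exact Metric.mem_ball_self one_pos
  simp only [neg_zero, uu_zero] at h1
  rw [h1, pp_cube]
  ring

lemma uu_ne_zero {z : ℂ} (hz : ‖z‖ < 1 / 2) : uu z ≠ 0 := by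
  intro h0
  have h1 := norm_uu_sub_taylor (z := z) (by linarith) 1
  rw [h0] at h1
  simp only [Finset.range_one, Finset.sum_singleton, co_zero, pow_zero, mul_one, zero_sub, norm_neg,
    norm_pp, pow_one] at h1
  rw [le_div_iff₀ (by linarith)] at h1
  linarith

/-- The real cube root of `2`. -/
noncomputable def bet : ℝ := (2 : ℝ) ^ (1 / 3 : ℝ)

lemma bet_pos : 0 < bet := by unfold bet; positivity

lemma bet_cube : bet ^ 3 = 2 := by
  unfold bet
  rw [← Real.rpow_natCast, ← Real.rpow_mul (by norm_num)]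
  norm_num

lemma one_lt_bet : 1 < bet := by
  by_contra h
  push Not at h
  have h1 := bet_cube
  have h2 := bet_pos
  have : bet ^ 3 ≤ 1 := pow_le_one₀ h2.le h
  linarith

lemma bet_lt : bet < 1.26 := by
  by_contra h
  push Not at h
  have h1 := bet_cube
  have : (1.26 : ℝ) ^ 3 ≤ bet ^ 3 := by gcongr
  norm_num at this
  linarith

lemma bet_lt_norm_uu : bet < ‖uu ((9 / 20 : ℝ) : ℂ)‖ := by
  have hn : ‖((9 / 20 : ℝ) : ℂ)‖ = 9 / 20 := by
    rw [Complex.norm_real, Real.norm_eq_abs, abs_of_pos (by norm_num)]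
  have h1 := norm_uu_sub_taylor (z := ((9 / 20 : ℝ) : ℂ)) (by rw [hn]; norm_num) 4
  rw [hn] at h1
  set P : ℂ := ∑ n ∈ Finset.range 4, co n * ((9 / 20 : ℝ) : ℂ) ^ n with hP
  have hPe : P = ⟨0.4926875, √3 / 2 * 1.480375⟩ := by
    rw [hP]
    simp only [Finset.sum_range_succ, Finset.range_zero, Finset.sum_empty, co_zero, co_one, co_two,
      co_three]
    have e1 : ((9 / 20 : ℝ) : ℂ) ^ 1 = ((9 / 20 : ℝ) : ℂ) := by simp
    have e2 : ((9 / 20 : ℝ) : ℂ) ^ 2 = ((81 / 400 : ℝ) : ℂ) := by push_cast; norm_num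
    have e3 : ((9 / 20 : ℝ) : ℂ) ^ 3 = ((729 / 8000 : ℝ) : ℂ) := by push_cast; norm_num
    rw [e1, e2, e3]
    apply Complex.ext
    · simp [pp]
      norm_num
    · simp [pp]
      ring
  have hPn : (1.34 : ℝ) < ‖P‖ := by
    have h3 : √3 * √3 = 3 := Real.mul_self_sqrt (by norm_num)
    rw [← abs_of_pos (show (0 : ℝ) < 1.34 by norm_num), ← abs_of_nonneg (norm_nonneg P),
      ← sq_lt_sq, ← Complex.normSq_eq_norm_sq, Complex.normSq_apply, hPe]
    nlinarith
  have h2 : ‖P‖ ≤ ‖uu ((9 / 20 : ℝ) : ℂ)‖ + ‖uu ((9 / 20 : ℝ) : ℂ) - P‖ := by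
    have := norm_sub_le (uu ((9 / 20 : ℝ) : ℂ)) (uu ((9 / 20 : ℝ) : ℂ) - P)
    rwa [sub_sub_cancel] at this
  have h4 : ((9 / 20 : ℝ)) ^ 4 / (1 - 9 / 20) < 0.075 := by norm_num
  have := bet_lt
  linarith

lemma continuousOn_uu_real : ContinuousOn (fun t : ℝ => uu t) (Icc 0 (9 / 20)) := by
  intro t ht
  have hn : ‖(t : ℂ)‖ < 1 := by
    rw [Complex.norm_real, Real.norm_eq_abs, abs_of_nonneg ht.1]
    linarith [ht.2]
  exact ((hasDerivAt_uu hn).comp_ofReal).continuousAt.continuousWithinAt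

lemma exists_t0 : ∃ t₀ : ℝ, 0 < t₀ ∧ t₀ < 9 / 20 ∧ ‖uu t₀‖ = bet ∧
    0 ≤ (conj (uu t₀) * uu (-t₀) ^ 2).re := by
  have hcont : ContinuousOn (fun t : ℝ => ‖uu t‖) (Icc 0 (9 / 20)) := continuousOn_uu_real.norm
  set S : Set ℝ := {t ∈ Icc (0 : ℝ) (9 / 20) | bet ≤ ‖uu t‖} with hS
  have hSclosed : IsClosed S :=
    isClosed_Icc.isClosed_le continuousOn_const hcont
  have hSne : S.Nonempty := ⟨9 / 20, ⟨by norm_num, le_rfl⟩, bet_lt_norm_uu.le⟩
  have hScomp : IsCompact S := (isCompact_Icc (a := (0 : ℝ)) (b := 9 / 20)).of_isClosed_subset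
    hSclosed (fun t ht => ht.1)
  obtain ⟨t₀, ht₀S, ht₀min⟩ := hScomp.exists_isLeast hSne
  have ht₀pos : 0 < t₀ := by
    rcases ht₀S.1.1.eq_or_lt with h | h
    · exfalso
      have := ht₀S.2
      rw [← h] at this
      simp only [Complex.ofReal_zero, uu_zero, norm_pp] at this
      linarith [one_lt_bet]
    · exact h
  have hless : ∀ t, 0 ≤ t → t < t₀ → ‖uu t‖ < bet := by
    intro t ht0 htlt
    by_contra hcon
    push Not at hcon
    have : t ∈ S := ⟨⟨ht0, (htlt.trans_le ht₀S.1.2).le⟩, hcon⟩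
    exact absurd (ht₀min this) (not_le.mpr htlt)
  have hn : ‖(t₀ : ℂ)‖ < 1 := by
    rw [Complex.norm_real, Real.norm_eq_abs, abs_of_pos ht₀pos]
    linarith [ht₀S.1.2]
  have hd : HasDerivAt (fun t : ℝ => uu t) (uu (-t₀) ^ 2) t₀ := (hasDerivAt_uu hn).comp_ofReal
  have heq : ‖uu t₀‖ = bet := by
    apply le_antisymm _ ht₀S.2
    have htend : Tendsto (fun t : ℝ => ‖uu t‖) (𝓝[<] t₀) (𝓝 ‖uu t₀‖) :=
      (hd.continuousAt.norm).tendsto.mono_left nhdsWithin_le_nhds
    apply le_of_tendsto htend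
    have h1 : ∀ᶠ t in 𝓝[<] t₀, 0 < t :=
      eventually_nhdsWithin_of_eventually_nhds (lt_mem_nhds ht₀pos)
    have h2 : ∀ᶠ t in 𝓝[<] t₀, t < t₀ := eventually_mem_nhdsWithin
    filter_upwards [h1, h2] with t a b using (hless t a.le b).le
  refine ⟨t₀, ht₀pos, ?_, heq, ?_⟩
  · rcases ht₀S.1.2.eq_or_lt with h | h
    · exfalso
      have := bet_lt_norm_uu
      rw [← h, heq] at this
      exact lt_irrefl _ this
    · exact h
  · have hsq := hd.norm_sq
    rw [Complex.inner] at hsq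
    have hslope := hsq.tendsto_slope
    have hslope' := hslope.mono_left (nhdsWithin_mono t₀ (fun t (ht : t ∈ Iio t₀) => ht.ne))
    have hnn : 0 ≤ 2 * (conj (uu t₀) * uu (-t₀) ^ 2).re := by
      rw [mul_comm (conj (uu t₀))]
      apply ge_of_tendsto hslope'
      have h1 : ∀ᶠ t in 𝓝[<] t₀, 0 < t :=
        eventually_nhdsWithin_of_eventually_nhds (lt_mem_nhds ht₀pos)
      have h2 : ∀ᶠ t in 𝓝[<] t₀, t < t₀ := eventually_mem_nhdsWithin
      filter_upwards [h1, h2] with t a b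
      rw [slope_def_field]
      apply div_nonneg_of_nonpos
      · have := hless t a.le b
        rw [heq]
        have : ‖uu t‖ ^ 2 ≤ bet ^ 2 := by gcongr
        linarith
      · linarith
    linarith

/-- Selection of the branch. -/
lemma branch {A C : ℂ} (h1 : A ^ 3 + C ^ 3 = -2) (hA : ‖A‖ = bet) (hC : C ≠ 0)
    (hre : 0 ≤ (conj A * C ^ 2).re) : C * conj A = bet * conj C := by
  have hAA : A * conj A = ((bet ^ 2 : ℝ) : ℂ) := by
    rw [Complex.mul_conj, Complex.normSq_eq_norm_sq, hA]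
  set r : ℝ := Complex.normSq C with hr
  have hr0 : 0 < r := Complex.normSq_pos.mpr hC
  have hCC : C * conj C = (r : ℂ) := Complex.mul_conj C
  have hb3 : ((bet : ℂ)) ^ 3 = 2 := by exact_mod_cast congrArg (fun x : ℝ => (x : ℂ)) bet_cube
  have h2 : conj A ^ 3 + conj C ^ 3 = -2 := by
    have := congrArg conj h1
    rw [map_add, map_pow, map_pow, map_neg] at this
    rw [this]
    congr 1
    exact Complex.conj_ofNat 2
  have hA6 : A ^ 3 * conj A ^ 3 = 4 := by
    rw [← mul_pow, hAA]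
    push_cast
    linear_combination ((bet : ℂ) ^ 3 + 2) * hb3
  have h3 : A ^ 3 * conj C ^ 3 = 2 * C ^ 3 := by
    linear_combination A ^ 3 * h2 - hA6 + (-2 : ℂ) * h1
  set ξ : ℂ := conj A * C ^ 2 with hξ
  have hr3 : C ^ 3 * conj C ^ 3 = (r : ℂ) ^ 3 := by rw [← mul_pow, hCC]
  have hξ3 : ξ ^ 3 = ((bet : ℂ) * r) ^ 3 := by
    rw [hξ]
    have : 2 * (conj A * C ^ 2) ^ 3 = 2 * ((bet : ℂ) * r) ^ 3 := by
      calc 2 * (conj A * C ^ 2) ^ 3 = conj A ^ 3 * (C ^ 3 * (2 * C ^ 3)) := by ring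
        _ = conj A ^ 3 * (C ^ 3 * (A ^ 3 * conj C ^ 3)) := by rw [h3]
        _ = (A ^ 3 * conj A ^ 3) * (C ^ 3 * conj C ^ 3) := by ring
        _ = 2 * (2 * (r : ℂ) ^ 3) := by rw [hA6, hr3]; ring
        _ = 2 * ((bet : ℂ) * r) ^ 3 := by rw [mul_pow, hb3]
    exact mul_left_cancel₀ two_ne_zero this
  set s : ℝ := bet * r with hs
  have hs0 : 0 < s := mul_pos bet_pos hr0
  have hξ3' : ξ ^ 3 = (s : ℂ) ^ 3 := by rw [hξ3, hs]; push_cast; ring
  have hξs : ξ = s := by
    have hfac : (ξ - s) * (ξ ^ 2 + ξ * s + s ^ 2) = 0 := by linear_combination hξ3'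
    rcases mul_eq_zero.mp hfac with h | h
    · exact sub_eq_zero.mp h
    · exfalso
      have him := congrArg Complex.im h
      have hrr := congrArg Complex.re h
      simp only [sq, Complex.add_im, Complex.mul_im, Complex.ofReal_im, Complex.ofReal_re, mul_zero,
        Complex.zero_im, Complex.add_re, Complex.mul_re, Complex.zero_re, sub_zero, zero_mul,
        add_zero, zero_add] at him hrr
      have h5 : ξ.im * (2 * ξ.re + s) = 0 := by linarith
      rcases mul_eq_zero.mp h5 with h6 | h6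
      · rw [h6] at hrr
        nlinarith
      · linarith
  apply mul_left_cancel₀ hC
  calc C * (C * conj A) = ξ := by rw [hξ]; ring
    _ = (bet : ℂ) * (C * conj C) := by rw [hξs, hs, hCC]; push_cast; ring
    _ = C * (bet * conj C) := by ring

end Pool.Agent.Herman
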