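import Mathlib
import Pool.Agent.Herman.Basic

/-!
# Fourier expansion of periodic holomorphic functions on a strip, and Fourier multipliers
-/

set_option autoImplicit false

namespace Pool.Agent.Herman

open Set Filter Topology MeasureTheory
open scoped Real

/-- The character `exp (2 π i k z)`. -/
noncomputable def ch (k : ℤ) (z : ℂ) : ℂ := Complex.exp (2 * π * Complex.I * k * z)

lemma ch_add (k : ℤ) (z w : ℂ) : ch k (z + w) = ch k z * ch k w := by
  unfold ch
  rw [← Complex.exp_add]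
  congr 1
  ring

lemma ch_one (k : ℤ) : ch k 1 = 1 := by
  unfold ch
  rw [Complex.exp_eq_one_iff]
  exact ⟨k, by ring⟩

lemma ch_add_one (k : ℤ) (z : ℂ) : ch k (z + 1) = ch k z := by
  rw [ch_add, ch_one, mul_one]

lemma differentiable_ch (k : ℤ) : Differentiable ℂ (ch k) := by
  unfold ch
  fun_prop

lemma norm_ch (k : ℤ) (z : ℂ) : ‖ch k z‖ = Real.exp (-(2 * π * k * z.im)) := by
  unfold ch
  rw [Complex.norm_exp]
  congr 1
  simp

lemma ch_neg (k : ℤ) (z : ℂ) : ch k (-z) = ch (-k) z := by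
  unfold ch
  congr 1
  push_cast
  ring

/-- Fourier coefficient. -/
noncomputable def fc (f : ℂ → ℂ) (k : ℤ) : ℂ := mean (fun z => f z * ch (-k) z)

/-- The integral over one period is independent of the height. -/
lemma integral_line_eq {ρ M : ℝ} {g : ℂ → ℂ} (hg : PH ρ M g) {y : ℝ} (hy : |y| < ρ) :
    ∫ x in (0 : ℝ)..1, g (x + y * Complex.I) = mean g := by
  have hρ : 0 < ρ := lt_of_le_of_lt (abs_nonneg _) hy
  have h := Complex.integral_boundary_rect_eq_zero_of_differentiableOn g 0 (1 + y * Complex.I) (by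
    refine hg.diff.mono ?_
    intro w hw
    rw [Complex.mem_reProdIm] at hw
    have h2 := hw.2
    simp only [Complex.zero_im, Complex.add_im, Complex.one_im, Complex.mul_im, Complex.ofReal_re,
      Complex.I_im, mul_one, Complex.ofReal_im, Complex.I_re, mul_zero, add_zero, zero_add] at h2
    have h3 : |w.im| ≤ |y| := by
      have := abs_sub_left_of_mem_uIcc h2
      simpa using this
    exact lt_of_le_of_lt h3 hy)
  simp only [Complex.zero_re, Complex.zero_im, Complex.add_re, Complex.one_re, Complex.mul_re,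
    Complex.ofReal_re, Complex.I_re, mul_zero, Complex.ofReal_im, Complex.I_im, mul_one, sub_self,
    add_zero, Complex.add_im, Complex.one_im, Complex.mul_im, zero_add, Complex.ofReal_zero,
    zero_mul, Complex.ofReal_one] at h
  have hper : ∫ (t : ℝ) in (0 : ℝ)..y, g (1 + t * Complex.I) =
      ∫ (t : ℝ) in (0 : ℝ)..y, g (t * Complex.I) := by
    apply intervalIntegral.integral_congr
    intro t ht
    have ht' : |t| ≤ |y| := by
      have := abs_sub_left_of_mem_uIcc ht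
      simpa using this
    have hm : (t * Complex.I : ℂ) ∈ strip ρ := by
      simpa [strip] using lt_of_le_of_lt ht' hy
    have := hg.per _ hm
    show g (1 + t * Complex.I) = g (t * Complex.I)
    rw [← this, add_comm]
  rw [hper] at h
  simp only [add_sub_cancel_right] at h
  unfold mean
  linear_combination -h

lemma ph_mul_ch {ρ M : ℝ} {f : ℂ → ℂ} (hf : PH ρ M f) (k : ℤ) :
    PH ρ (M * Real.exp (2 * π * |(k : ℝ)| * ρ)) (fun z => f z * ch k z) where
  diff := hf.diff.mul (differentiable_ch k).differentiableOn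
  per z hz := by simp only [hf.per z hz, ch_add_one]
  bdd z hz := by
    rw [norm_mul, norm_ch]
    apply mul_le_mul (hf.bdd z hz) _ (Real.exp_nonneg _) (le_trans (norm_nonneg _) (hf.bdd z hz))
    apply Real.exp_le_exp.mpr
    have h1 : -(2 * π * k * z.im) ≤ |2 * π * k * z.im| := neg_le_abs _
    have h2 : |2 * π * k * z.im| = 2 * π * |(k : ℝ)| * |z.im| := by
      rw [abs_mul, abs_mul, abs_of_pos Real.two_pi_pos]
    have h3 : |z.im| < ρ := hz
    have h4 : 2 * π * |(k : ℝ)| * |z.im| ≤ 2 * π * |(k : ℝ)| * ρ := by gcongr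
    linarith

lemma integral_line_eq_fc {ρ M : ℝ} {f : ℂ → ℂ} (hf : PH ρ M f) (k : ℤ) {y : ℝ} (hy : |y| < ρ) :
    ∫ x in (0 : ℝ)..1, f (x + y * Complex.I) * ch (-k) (x + y * Complex.I) = fc f k :=
  integral_line_eq (ph_mul_ch hf (-k)) hy

lemma norm_fc_le {ρ M : ℝ} {f : ℂ → ℂ} (hf : PH ρ M f) (k : ℤ) (hρ : 0 < ρ) :
    ‖fc f k‖ ≤ M * Real.exp (-(2 * π * |(k : ℝ)| * ρ)) := by
  have key : ∀ r, 0 < r → r < ρ → ‖fc f k‖ ≤ M * Real.exp (-(2 * π * |(k : ℝ)| * r)) := by
    intro r hr hrρ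
    obtain ⟨y, hy, hyk⟩ : ∃ y : ℝ, |y| = r ∧ k * y = -(|(k : ℝ)| * r) := by
      rcases le_total 0 (k : ℝ) with hk | hk
      · refine ⟨-r, by rw [abs_neg, abs_of_pos hr], ?_⟩
        rw [abs_of_nonneg hk]; ring
      · refine ⟨r, abs_of_pos hr, ?_⟩
        rw [abs_of_nonpos hk]; ring
    rw [← integral_line_eq_fc hf k (y := y) (by rw [hy]; exact hrρ)]
    have := intervalIntegral.norm_integral_le_of_norm_le_const (a := (0 : ℝ)) (b := 1)
      (f := fun x : ℝ => f (x + y * Complex.I) * ch (-k) (x + y * Complex.I))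
      (C := M * Real.exp (-(2 * π * |(k : ℝ)| * r))) (fun x _ => by
        have hm : (x + y * Complex.I : ℂ) ∈ strip ρ := by
          simp only [strip, mem_ofPred_eq, Complex.add_im, Complex.ofReal_im, Complex.mul_im,
            Complex.ofReal_re, Complex.I_im, mul_one, Complex.I_re, mul_zero, add_zero, zero_add]
          rw [hy]; exact hrρ
        rw [norm_mul, norm_ch]
        apply mul_le_mul (hf.bdd _ hm) _ (Real.exp_nonneg _)
          (le_trans (norm_nonneg _) (hf.bdd _ hm))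
        apply Real.exp_le_exp.mpr
        simp only [Complex.add_im, Complex.ofReal_im, Complex.mul_im,
            Complex.ofReal_re, Complex.I_im, mul_one, Complex.I_re, mul_zero, add_zero, zero_add]
        push_cast
        have : -(2 * π * -(k : ℝ) * y) = 2 * π * (k * y) := by ring
        rw [this, hyk]
        apply le_of_eq
        ring)
    simpa using this
  have hlim : Tendsto (fun r : ℝ => M * Real.exp (-(2 * π * |(k : ℝ)| * r))) (𝓝[<] ρ)
      (𝓝 (M * Real.exp (-(2 * π * |(k : ℝ)| * ρ)))) := by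
    apply Tendsto.mono_left _ nhdsWithin_le_nhds
    apply Continuous.tendsto
    fun_prop
  refine ge_of_tendsto hlim ?_
  have h1 : ∀ᶠ r in 𝓝[<] ρ, 0 < r :=
    eventually_nhdsWithin_of_eventually_nhds (lt_mem_nhds hρ)
  have h2 : ∀ᶠ r in 𝓝[<] ρ, r < ρ := eventually_mem_nhdsWithin
  filter_upwards [h1, h2] with r hr hrδ using key r hr hrδ

/-- Summability of `exp (-a |k|)` over the integers. -/
lemma hasSum_geometric_int {a : ℝ} (ha : 0 < a) (ha1 : a ≤ 1) :
    Summable (fun k : ℤ => Real.exp (-(a * |(k : ℝ)|))) ∧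
      ∑' k : ℤ, Real.exp (-(a * |(k : ℝ)|)) ≤ 4 / a := by
  have hr0 : 0 ≤ Real.exp (-a) := Real.exp_nonneg _
  have hr1 : Real.exp (-a) < 1 := by
    rw [Real.exp_lt_one_iff]; linarith
  have e1 : ∀ n : ℕ, Real.exp (-(a * |((n : ℤ) : ℝ)|)) = Real.exp (-a) ^ n := by
    intro n
    rw [← Real.exp_nat_mul]
    congr 1
    rw [Int.cast_natCast, abs_of_nonneg (Nat.cast_nonneg n)]
    ring
  have e2 : ∀ n : ℕ, Real.exp (-(a * |((-((n : ℤ) + 1) : ℤ) : ℝ)|)) =
      Real.exp (-a) * Real.exp (-a) ^ n := by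
    intro n
    rw [← Real.exp_nat_mul, ← Real.exp_add]
    congr 1
    push_cast
    rw [abs_neg, abs_of_nonneg (by positivity)]
    ring
  have s1 := hasSum_geometric_of_lt_one hr0 hr1
  have s2 := s1.mul_left (Real.exp (-a))
  have s3 : HasSum (fun k : ℤ => Real.exp (-(a * |(k : ℝ)|)))
      ((1 - Real.exp (-a))⁻¹ + Real.exp (-a) * (1 - Real.exp (-a))⁻¹) := by
    apply HasSum.of_nat_of_neg_add_one
    · exact s1.congr_fun (fun n => (e1 n))
    · exact s2.congr_fun (fun n => (e2 n))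
  refine ⟨s3.summable, ?_⟩
  rw [s3.tsum_eq]
  have h1 : a / 2 ≤ 1 - Real.exp (-a) := by
    have h2 : Real.exp (-a) * Real.exp a = 1 := by
      rw [← Real.exp_add]; simp
    have h3 : 1 + a ≤ Real.exp a := by linarith [Real.add_one_le_exp a]
    have h4 : Real.exp (-a) * (1 + a) ≤ 1 := by
      calc Real.exp (-a) * (1 + a) ≤ Real.exp (-a) * Real.exp a := by gcongr
        _ = 1 := h2
    nlinarith
  have h5 : 0 < 1 - Real.exp (-a) := by linarith
  have h6 : (1 - Real.exp (-a))⁻¹ ≤ 2 / a := by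
    rw [inv_le_comm₀ h5 (by positivity), inv_div]
    exact h1
  have h7 : Real.exp (-a) * (1 - Real.exp (-a))⁻¹ ≤ 1 * (2 / a) := by
    apply mul_le_mul hr1.le h6 (by positivity) (by norm_num)
  calc _ ≤ 2 / a + 1 * (2 / a) := add_le_add h6 h7
    _ = 4 / a := by ring

/-- Fourier inversion on the strip. -/
lemma hasSum_fc {ρ M : ℝ} {f : ℂ → ℂ} (hf : PH ρ M f) {z : ℂ} (hz : z ∈ strip ρ) :
    HasSum (fun k : ℤ => fc f k * ch k z) (f z) := by
  have hρ : 0 < ρ := lt_of_le_of_lt (abs_nonneg _) hz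
  set y : ℝ := z.im with hy
  have hyρ : |y| < ρ := hz
  have hper : Function.Periodic (fun x : ℝ => f (x + y * Complex.I)) 1 := by
    intro x
    have hm : (x + y * Complex.I : ℂ) ∈ strip ρ := by
      simpa [strip] using hyρ
    have := hf.per _ hm
    show f (((x + 1 : ℝ) : ℂ) + y * Complex.I) = f (x + y * Complex.I)
    rw [← this]
    congr 1
    push_cast
    ring
  have : Fact ((0 : ℝ) < 1) := ⟨one_pos⟩
  let g : C(AddCircle (1 : ℝ), ℂ) :=
    ⟨hper.lift, continuous_coinduced_dom.mpr (hf.continuous_line hyρ)⟩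
  have hg : ∀ x : ℝ, g (x : AddCircle (1 : ℝ)) = f (x + y * Complex.I) := fun x => by
    show hper.lift (x : AddCircle (1 : ℝ)) = _
    exact hper.lift_coe x
  have hfour : ∀ (k : ℤ) (x : ℝ), fourier k (x : AddCircle (1 : ℝ)) = ch k x := by
    intro k x
    rw [fourier_coe_apply]
    unfold ch
    congr 1
    push_cast
    ring
  have hcoef : ∀ k : ℤ, fourierCoeff g k = ch k (y * Complex.I) * fc f k := by
    intro k
    rw [fourierCoeff_eq_intervalIntegral g k 0, ← integral_line_eq_fc hf k hyρ,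
      ← intervalIntegral.integral_const_mul]
    simp only [zero_add, div_one, one_smul]
    apply intervalIntegral.integral_congr
    intro x _
    simp only [hg, hfour, smul_eq_mul]
    have h1 : ch k (y * Complex.I) * ch (-k) (y * Complex.I) = 1 := by
      unfold ch
      rw [← Complex.exp_add]
      simp
    rw [ch_add]
    linear_combination (-(ch (-k) x) * f (x + y * Complex.I)) * h1
  have hsum : Summable (fourierCoeff g) := by
    have hb : ∀ k : ℤ, ‖fourierCoeff g k‖ ≤ M * Real.exp (-((min 1 (ρ - |y|)) * |(k : ℝ)|)) := by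
      intro k
      rw [hcoef, norm_mul, norm_ch]
      have h1 := norm_fc_le hf k hρ
      have hM : 0 ≤ M := hf.nonneg hρ
      calc Real.exp (-(2 * π * k * (y * Complex.I).im)) * ‖fc f k‖
          ≤ Real.exp (2 * π * |(k : ℝ)| * |y|) * (M * Real.exp (-(2 * π * |(k : ℝ)| * ρ))) := by
            apply mul_le_mul _ h1 (norm_nonneg _) (Real.exp_nonneg _)
            apply Real.exp_le_exp.mpr
            have e : (y * Complex.I).im = y := by simp
            rw [e]
            have h2 : -(2 * π * k * y) ≤ |2 * π * k * y| := neg_le_abs _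
            rw [abs_mul, abs_mul, abs_of_pos Real.two_pi_pos] at h2
            exact h2
        _ = M * Real.exp (-(2 * π * (ρ - |y|) * |(k : ℝ)|)) := by
            rw [mul_comm, mul_assoc, ← Real.exp_add]
            congr 2
            ring
        _ ≤ M * Real.exp (-((min 1 (ρ - |y|)) * |(k : ℝ)|)) := by
            apply mul_le_mul_of_nonneg_left _ hM
            apply Real.exp_le_exp.mpr
            have h3 : min 1 (ρ - |y|) ≤ 2 * π * (ρ - |y|) := by
              have h4 := min_le_right 1 (ρ - |y|)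
              have h5 : (1 : ℝ) ≤ 2 * π := by linarith [Real.pi_gt_three]
              have h6 : 0 < ρ - |y| := by linarith
              nlinarith
            have := mul_le_mul_of_nonneg_right h3 (abs_nonneg (k : ℝ))
            linarith
    apply Summable.of_norm_bounded _ hb
    apply Summable.mul_left
    exact (hasSum_geometric_int (lt_min one_pos (by linarith)) (min_le_left _ _)).1
  have h := has_pointwise_sum_fourier_series_of_summable hsum (z.re : AddCircle (1 : ℝ))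
  rw [hg] at h
  have hz' : (z.re : ℂ) + y * Complex.I = z := Complex.re_add_im z
  rw [hz'] at h
  refine h.congr_fun ?_
  intro k
  rw [hcoef, hfour, smul_eq_mul]
  conv_lhs => rw [← hz']
  rw [ch_add]
  ring

/-- A Fourier multiplier. -/
noncomputable def mult (μ : ℤ → ℂ) (f : ℂ → ℂ) (z : ℂ) : ℂ := ∑' k : ℤ, μ k * fc f k * ch k z

/-- Weight bound used for the small divisors. -/
lemma weight_bound {δ : ℝ} (hδ : 0 < δ) (hδ1 : δ ≤ 1) (k : ℤ) :
    (1 + |(k : ℝ)| ^ 3) * Real.exp (-(2 * π * |(k : ℝ)| * δ)) ≤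
      12 / δ ^ 3 * Real.exp (-(δ * |(k : ℝ)|)) := by
  set t : ℝ := δ * |(k : ℝ)| with ht
  have ht0 : 0 ≤ t := by positivity
  have h1 : t ^ 3 ≤ 6 * Real.exp t := by
    have := Real.pow_div_factorial_le_exp t ht0 3
    have h6 : ((Nat.factorial 3 : ℕ) : ℝ) = 6 := by norm_num [Nat.factorial]
    rw [h6, div_le_iff₀ (by norm_num)] at this
    linarith
  have h2 : (1 : ℝ) ≤ Real.exp t := Real.one_le_exp ht0
  have h3 : (1 + |(k : ℝ)| ^ 3) ≤ 12 / δ ^ 3 * Real.exp t := by
    have e : |(k : ℝ)| ^ 3 = t ^ 3 / δ ^ 3 := by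
      rw [ht, mul_pow]; field_simp
    rw [e]
    have hδ3 : 0 < δ ^ 3 := by positivity
    have hδ31 : δ ^ 3 ≤ 1 := pow_le_one₀ hδ.le hδ1
    have h4 : (1 : ℝ) ≤ 6 / δ ^ 3 * Real.exp t := by
      have : (1 : ℝ) ≤ 6 / δ ^ 3 := by
        rw [le_div_iff₀ hδ3]; linarith
      nlinarith
    have h5 : t ^ 3 / δ ^ 3 ≤ 6 / δ ^ 3 * Real.exp t := by
      rw [div_mul_eq_mul_div]
      gcongr
    calc 1 + t ^ 3 / δ ^ 3 ≤ 6 / δ ^ 3 * Real.exp t + 6 / δ ^ 3 * Real.exp t := add_le_add h4 h5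
      _ = 12 / δ ^ 3 * Real.exp t := by ring
  have h6 : Real.exp (-(2 * π * |(k : ℝ)| * δ)) ≤ Real.exp (-t) * Real.exp (-t) := by
    rw [← Real.exp_add]
    apply Real.exp_le_exp.mpr
    have : 2 * π * |(k : ℝ)| * δ = 2 * π * t := by rw [ht]; ring
    rw [this]
    nlinarith [Real.pi_gt_three]
  calc (1 + |(k : ℝ)| ^ 3) * Real.exp (-(2 * π * |(k : ℝ)| * δ))
      ≤ (12 / δ ^ 3 * Real.exp t) * (Real.exp (-t) * Real.exp (-t)) := by
        apply mul_le_mul h3 h6 (Real.exp_nonneg _) (by positivity)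
    _ = 12 / δ ^ 3 * (Real.exp t * Real.exp (-t)) * Real.exp (-t) := by ring
    _ = 12 / δ ^ 3 * Real.exp (-t) := by
        rw [← Real.exp_add, add_neg_cancel, Real.exp_zero, mul_one]

section mult

variable {ρ M C δ : ℝ} {f : ℂ → ℂ} {μ : ℤ → ℂ}

lemma norm_mult_term_le (hf : PH ρ M f) (hμ : ∀ k, ‖μ k‖ ≤ C * (1 + |(k : ℝ)| ^ 3))
    (hδ : 0 < δ) (hδ1 : δ ≤ 1) {z : ℂ} (hz : z ∈ strip (ρ - δ)) (k : ℤ) :
    ‖μ k * fc f k * ch k z‖ ≤ C * M * (12 / δ ^ 3) * Real.exp (-(δ * |(k : ℝ)|)) := by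
  have hz' : |z.im| < ρ - δ := hz
  have hρ : 0 < ρ := by linarith [abs_nonneg z.im]
  have hM : 0 ≤ M := hf.nonneg hρ
  have hC : 0 ≤ C := by
    have := hμ 0
    simp at this
    exact le_trans (norm_nonneg _) this
  rw [norm_mul, norm_mul, norm_ch]
  have h1 := norm_fc_le hf k hρ
  have h2 : Real.exp (-(2 * π * k * z.im)) ≤ Real.exp (2 * π * |(k : ℝ)| * (ρ - δ)) := by
    apply Real.exp_le_exp.mpr
    have h3 : -(2 * π * k * z.im) ≤ |2 * π * k * z.im| := neg_le_abs _
    rw [abs_mul, abs_mul, abs_of_pos Real.two_pi_pos] at h3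
    have h4 : 2 * π * |(k : ℝ)| * |z.im| ≤ 2 * π * |(k : ℝ)| * (ρ - δ) := by gcongr
    linarith
  calc ‖μ k‖ * ‖fc f k‖ * Real.exp (-(2 * π * k * z.im))
      ≤ (C * (1 + |(k : ℝ)| ^ 3)) * (M * Real.exp (-(2 * π * |(k : ℝ)| * ρ))) *
          Real.exp (2 * π * |(k : ℝ)| * (ρ - δ)) := by
        apply mul_le_mul _ h2 (Real.exp_nonneg _) (by positivity)
        exact mul_le_mul (hμ k) h1 (norm_nonneg _) (by positivity)
    _ = C * M * ((1 + |(k : ℝ)| ^ 3) * Real.exp (-(2 * π * |(k : ℝ)| * δ))) := by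
        have : Real.exp (-(2 * π * |(k : ℝ)| * δ)) =
          Real.exp (-(2 * π * |(k : ℝ)| * ρ)) * Real.exp (2 * π * |(k : ℝ)| * (ρ - δ)) := by
          rw [← Real.exp_add]; congr 1; ring
        rw [this]; ring
    _ ≤ C * M * (12 / δ ^ 3 * Real.exp (-(δ * |(k : ℝ)|))) := by
        apply mul_le_mul_of_nonneg_left (weight_bound hδ hδ1 k) (by positivity)
    _ = _ := by ring

lemma summable_mult_term (hf : PH ρ M f) (hμ : ∀ k, ‖μ k‖ ≤ C * (1 + |(k : ℝ)| ^ 3))
    (hδ : 0 < δ) (hδ1 : δ ≤ 1) {z : ℂ} (hz : z ∈ strip (ρ - δ)) :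
    Summable (fun k => μ k * fc f k * ch k z) := by
  apply Summable.of_norm_bounded _ (norm_mult_term_le hf hμ hδ hδ1 hz)
  exact (hasSum_geometric_int hδ hδ1).1.mul_left _

lemma ph_mult (hf : PH ρ M f) (hμ : ∀ k, ‖μ k‖ ≤ C * (1 + |(k : ℝ)| ^ 3))
    (hδ : 0 < δ) (hδ1 : δ ≤ 1) : PH (ρ - δ) (48 * C * M / δ ^ 4) (mult μ f) where
  diff := by
    apply Complex.differentiableOn_tsum_of_summable_norm
      (u := fun k : ℤ => C * M * (12 / δ ^ 3) * Real.exp (-(δ * |(k : ℝ)|)))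
    · exact (hasSum_geometric_int hδ hδ1).1.mul_left _
    · intro k
      exact ((differentiable_ch k).const_mul _).differentiableOn
    · exact isOpen_strip _
    · intro k w hw
      exact norm_mult_term_le hf hμ hδ hδ1 hw k
  per z _ := by
    unfold mult
    simp only [ch_add_one]
  bdd z hz := by
    have hz' : |z.im| < ρ - δ := hz
    have hρ : 0 < ρ := by linarith [abs_nonneg z.im]
    have hM : 0 ≤ M := hf.nonneg hρ
    have hC : 0 ≤ C := by
      have := hμ 0
      simp at this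
      exact le_trans (norm_nonneg _) this
    have hs := (hasSum_geometric_int hδ hδ1)
    have h1 := tsum_of_norm_bounded (f := fun k => μ k * fc f k * ch k z)
      (hs.1.mul_left (C * M * (12 / δ ^ 3))).hasSum (norm_mult_term_le hf hμ hδ hδ1 hz)
    unfold mult
    refine h1.trans ?_
    rw [tsum_mul_left]
    calc C * M * (12 / δ ^ 3) * ∑' k : ℤ, Real.exp (-(δ * |(k : ℝ)|))
        ≤ C * M * (12 / δ ^ 3) * (4 / δ) := by
          apply mul_le_mul_of_nonneg_left hs.2 (by positivity)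
      _ = 48 * C * M / δ ^ 4 := by field_simp; ring

lemma hasSum_mult (hf : PH ρ M f) (hμ : ∀ k, ‖μ k‖ ≤ C * (1 + |(k : ℝ)| ^ 3))
    (hδ : 0 < δ) (hδ1 : δ ≤ 1) {z : ℂ} (hz : z ∈ strip (ρ - δ)) :
    HasSum (fun k => μ k * fc f k * ch k z) (mult μ f z) :=
  (summable_mult_term hf hμ hδ hδ1 hz).hasSum

end mult

section cohomological

/-- The Diophantine condition, in terms of sines. -/
def DCs (γ θ : ℝ) : Prop :=
  ∀ k : ℤ, k ≠ 0 → γ * θ ≤ |2 * Real.sin (π * k * θ)| * (k : ℝ) ^ 2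

variable {γ θ h : ℝ}

lemma abs_int_ge_one {k : ℤ} (hk : k ≠ 0) : (1 : ℝ) ≤ |(k : ℝ)| := by
  have : (1 : ℤ) ≤ |k| := Int.one_le_abs hk
  exact_mod_cast this

lemma dc_cos (hDC : DCs γ θ) (hθ : θ = 2 * h) (hh : 0 < h) {k : ℤ} (hk : k ≠ 0) :
    γ ≤ |2 * Real.cos (π * k * h)| * (π * |(k : ℝ)| ^ 3) := by
  have h1 := hDC k hk
  have h2 : Real.sin (π * k * θ) = 2 * Real.sin (π * k * h) * Real.cos (π * k * h) := by
    rw [hθ, ← Real.sin_two_mul]; congr 1; ring
  have h3 : |Real.sin (π * k * h)| ≤ π * |(k : ℝ)| * h := by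
    have := Real.abs_sin_le_abs (x := π * k * h)
    rw [abs_mul, abs_mul, abs_of_pos Real.pi_pos, abs_of_pos hh] at this
    exact this
  have hk1 := abs_int_ge_one hk
  have h4 : |2 * Real.sin (π * k * θ)| = 2 * |Real.sin (π * k * h)| * |2 * Real.cos (π * k * h)| := by
    simp only [h2, abs_mul, abs_two]; ring
  rw [h4, hθ, ← sq_abs (k : ℝ)] at h1
  have h5 : 2 * |Real.sin (π * k * h)| * |2 * Real.cos (π * k * h)| * |(k : ℝ)| ^ 2 ≤
      2 * (π * |(k : ℝ)| * h) * |2 * Real.cos (π * k * h)| * |(k : ℝ)| ^ 2 := by gcongr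
  have h6 : (2 * h) * γ ≤ (2 * h) * (|2 * Real.cos (π * k * h)| * (π * |(k : ℝ)| ^ 3)) := by
    calc (2 * h) * γ = γ * (2 * h) := by ring
      _ ≤ _ := h1.trans h5
      _ = _ := by ring
  exact le_of_mul_le_mul_left h6 (by positivity)

lemma dc_sin (hDC : DCs γ θ) (hθ : θ = 2 * h) {k : ℤ} (hk : k ≠ 0) :
    γ * h ≤ |2 * Real.sin (π * k * h)| * |(k : ℝ)| ^ 2 := by
  have h1 := hDC k hk
  have h2 : Real.sin (π * k * θ) = 2 * Real.sin (π * k * h) * Real.cos (π * k * h) := by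
    rw [hθ, ← Real.sin_two_mul]; congr 1; ring
  have h4 : |2 * Real.sin (π * k * θ)| = 2 * |Real.cos (π * k * h)| * |2 * Real.sin (π * k * h)| := by
    simp only [h2, abs_mul, abs_two]; ring
  rw [h4, hθ, ← sq_abs (k : ℝ)] at h1
  have h3 : |Real.cos (π * k * h)| ≤ 1 := Real.abs_cos_le_one _
  have h5 : 2 * |Real.cos (π * k * h)| * |2 * Real.sin (π * k * h)| * |(k : ℝ)| ^ 2 ≤
      2 * 1 * |2 * Real.sin (π * k * h)| * |(k : ℝ)| ^ 2 := by gcongr
  linarith

/-- Multiplier solving `y (z + h/2) + y (z - h/2) = f z`. -/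
noncomputable def muC (h : ℝ) (k : ℤ) : ℂ := ((2 * Real.cos (π * k * h) : ℝ) : ℂ)⁻¹

/-- Multiplier solving `x (z + h/2) - x (z - h/2) = h (f z - mean f)`. -/
noncomputable def muS (h : ℝ) (k : ℤ) : ℂ :=
  if k = 0 then 0 else (h : ℂ) * (Complex.I * ((2 * Real.sin (π * k * h) : ℝ) : ℂ))⁻¹

lemma norm_muC_le (hDC : DCs γ θ) (hγ : 0 < γ) (hγ1 : γ ≤ 1) (hθ : θ = 2 * h) (hh : 0 < h)
    (k : ℤ) : ‖muC h k‖ ≤ 4 / γ * (1 + |(k : ℝ)| ^ 3) := by
  unfold muC
  rw [norm_inv, Complex.norm_real, Real.norm_eq_abs]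
  rcases eq_or_ne k 0 with rfl | hk
  · simp only [Int.cast_zero, mul_zero, zero_mul, Real.cos_zero, mul_one, abs_two, abs_zero]
    rw [div_mul_eq_mul_div, le_div_iff₀ hγ]
    norm_num
    linarith
  · have h1 := dc_cos hDC hθ hh hk
    have hk1 := abs_int_ge_one hk
    have h2 : 0 < |2 * Real.cos (π * k * h)| := by
      by_contra hcon
      have : |2 * Real.cos (π * k * h)| = 0 := le_antisymm (not_lt.mp hcon) (abs_nonneg _)
      rw [this, zero_mul] at h1
      linarith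
    have hk3 : (1 : ℝ) ≤ |(k : ℝ)| ^ 3 := one_le_pow₀ hk1
    have h3 : γ ≤ |2 * Real.cos (π * k * h)| * (4 * |(k : ℝ)| ^ 3) := by
      refine h1.trans ?_
      gcongr
      exact Real.pi_le_four
    rw [inv_eq_one_div, div_le_iff₀ h2, div_mul_eq_mul_div, div_mul_eq_mul_div, le_div_iff₀ hγ]
    nlinarith

lemma norm_muS_le (hDC : DCs γ θ) (hγ : 0 < γ) (hθ : θ = 2 * h) (hh : 0 < h)
    (k : ℤ) : ‖muS h k‖ ≤ 4 / γ * (1 + |(k : ℝ)| ^ 3) := by
  unfold muS
  split_ifs with hk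
  · rw [norm_zero]; positivity
  · rw [norm_mul, norm_inv, norm_mul, Complex.norm_I, one_mul, Complex.norm_real,
      Complex.norm_real, Real.norm_eq_abs, Real.norm_eq_abs, abs_of_pos hh]
    have h1 := dc_sin hDC hθ hk
    have hk1 := abs_int_ge_one hk
    have hγh : 0 < γ * h := by positivity
    have h2 : 0 < |2 * Real.sin (π * k * h)| := by
      by_contra hcon
      have : |2 * Real.sin (π * k * h)| = 0 := le_antisymm (not_lt.mp hcon) (abs_nonneg _)
      rw [this, zero_mul] at h1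
      linarith
    have hk3 : |(k : ℝ)| ^ 2 ≤ |(k : ℝ)| ^ 3 := pow_le_pow_right₀ hk1 (by norm_num)
    rw [← div_eq_mul_inv, div_le_iff₀ h2, div_mul_eq_mul_div, div_mul_eq_mul_div, le_div_iff₀ hγ]
    calc h * γ = γ * h := by ring
      _ ≤ |2 * Real.sin (π * k * h)| * |(k : ℝ)| ^ 2 := h1
      _ ≤ |2 * Real.sin (π * k * h)| * (4 * (1 + |(k : ℝ)| ^ 3)) := by
          gcongr
          nlinarith
      _ = _ := by ring

lemma muC_mul (hDC : DCs γ θ) (hγ : 0 < γ) (hθ : θ = 2 * h) (hh : 0 < h) (k : ℤ) :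
    muC h k * (ch k (h / 2 : ℝ) + ch k (-(h / 2) : ℝ)) = 1 := by
  have hne : ((2 * Real.cos (π * k * h) : ℝ) : ℂ) ≠ 0 := by
    rw [Complex.ofReal_ne_zero]
    rcases eq_or_ne k 0 with rfl | hk
    · simp
    · have h1 := dc_cos hDC hθ hh hk
      intro h0
      rw [h0, abs_zero, zero_mul] at h1
      linarith
  have e : ch k (h / 2 : ℝ) + ch k (-(h / 2) : ℝ) = ((2 * Real.cos (π * k * h) : ℝ) : ℂ) := by
    unfold ch
    push_cast
    rw [Complex.two_cos]
    congr 1
    · congr 1; ring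
    · congr 1; ring
  rw [e]
  unfold muC
  exact inv_mul_cancel₀ hne

lemma muS_mul (hDC : DCs γ θ) (hγ : 0 < γ) (hθ : θ = 2 * h) (hh : 0 < h) {k : ℤ} (hk : k ≠ 0) :
    muS h k * (ch k (h / 2 : ℝ) - ch k (-(h / 2) : ℝ)) = h := by
  have hne : (Complex.I * ((2 * Real.sin (π * k * h) : ℝ) : ℂ)) ≠ 0 := by
    refine mul_ne_zero Complex.I_ne_zero ?_
    rw [Complex.ofReal_ne_zero]
    have h1 := dc_sin hDC hθ hk
    intro h0
    rw [h0, abs_zero, zero_mul] at h1
    have : 0 < γ * h := by positivity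
    linarith
  have e : ch k (h / 2 : ℝ) - ch k (-(h / 2) : ℝ) =
      Complex.I * ((2 * Real.sin (π * k * h) : ℝ) : ℂ) := by
    unfold ch
    push_cast
    rw [Complex.two_sin]
    have e1 : Complex.exp (-(π * k * h) * Complex.I) = Complex.exp (2 * π * Complex.I * k * (-(h / 2))) := by
      congr 1; ring
    have e2 : Complex.exp (π * k * h * Complex.I) = Complex.exp (2 * π * Complex.I * k * (h / 2)) := by
      congr 1; ring
    rw [e1, e2]
    linear_combination (Complex.exp (2 * π * Complex.I * k * (h / 2)) -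
      Complex.exp (2 * π * Complex.I * k * (-(h / 2)))) * Complex.I_sq
  rw [e]
  unfold muS
  rw [if_neg hk, mul_assoc, inv_mul_cancel₀ hne, mul_one]

/-- Solution of `y (z + h/2) + y (z - h/2) = f z`. -/
lemma cohom_plus {ρ M δ : ℝ} {f : ℂ → ℂ} (hf : PH ρ M f) (hDC : DCs γ θ) (hγ : 0 < γ)
    (hγ1 : γ ≤ 1) (hθ : θ = 2 * h) (hh : 0 < h) (hδ : 0 < δ) (hδ1 : δ ≤ 1) :
    ∃ y : ℂ → ℂ, PH (ρ - δ) (192 / γ * M / δ ^ 4) y ∧
      ∀ z ∈ strip (ρ - δ), y (z + (h / 2 : ℝ)) + y (z - (h / 2 : ℝ)) = f z := by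
  have hμ := norm_muC_le hDC hγ hγ1 hθ hh
  refine ⟨mult (muC h) f, ?_, ?_⟩
  · have := ph_mult hf hμ hδ hδ1
    convert this using 1
    ring
  · intro z hz
    have h1 := hasSum_mult hf hμ hδ hδ1 (add_real_mem_strip hz (h / 2))
    have h2 := hasSum_mult hf hμ hδ hδ1 (add_real_mem_strip hz (-(h / 2)))
    have e : z - ((h / 2 : ℝ) : ℂ) = z + ((-(h / 2) : ℝ) : ℂ) := by push_cast; ring
    rw [e]
    have h3 := h1.add h2
    have h4 := hasSum_fc hf (strip_mono (by linarith) hz)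
    refine h3.unique (h4.congr_fun ?_)
    intro k
    have h5 := muC_mul hDC hγ hθ hh k
    rw [ch_add, ch_add]
    linear_combination (fc f k * ch k z) * h5

/-- Solution of `x (z + h/2) - x (z - h/2) = h (f z - mean f)`. -/
lemma cohom_minus {ρ M δ : ℝ} {f : ℂ → ℂ} (hf : PH ρ M f) (hDC : DCs γ θ) (hγ : 0 < γ)
    (hθ : θ = 2 * h) (hh : 0 < h) (hδ : 0 < δ) (hδ1 : δ ≤ 1) :
    ∃ x : ℂ → ℂ, PH (ρ - δ) (192 / γ * M / δ ^ 4) x ∧
      ∀ z ∈ strip (ρ - δ), x (z + (h / 2 : ℝ)) - x (z - (h / 2 : ℝ)) = h * (f z - mean f) := by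
  have hμ := norm_muS_le hDC hγ hθ hh
  refine ⟨mult (muS h) f, ?_, ?_⟩
  · have := ph_mult hf hμ hδ hδ1
    convert this using 1
    ring
  · intro z hz
    have h1 := hasSum_mult hf hμ hδ hδ1 (add_real_mem_strip hz (h / 2))
    have h2 := hasSum_mult hf hμ hδ hδ1 (add_real_mem_strip hz (-(h / 2)))
    have e : z - ((h / 2 : ℝ) : ℂ) = z + ((-(h / 2) : ℝ) : ℂ) := by push_cast; ring
    rw [e]
    have h3 := h1.sub h2
    have h4 := hasSum_fc hf (strip_mono (by linarith) hz)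
    have h0 : fc f 0 = mean f := by
      unfold fc
      congr 1
      funext w
      simp [ch]
    have h5 : HasSum (fun k : ℤ => if k = 0 then mean f else 0) (mean f) :=
      hasSum_ite_eq 0 (mean f)
    have h6 := (h4.sub h5).mul_left (h : ℂ)
    refine h3.unique (h6.congr_fun ?_)
    intro k
    rcases eq_or_ne k 0 with rfl | hk
    · simp [muS, h0, ch]
    · have h7 := muS_mul hDC hγ hθ hh hk
      rw [ch_add, ch_add, if_neg hk]
      linear_combination (fc f k * ch k z) * h7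

end cohomological

end Pool.Agent.Herman
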