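import Mathlib
import Pool.Agent.Herman.Fourier

/-!
# One step of the Newton scheme
-/

set_option autoImplicit false

namespace Pool.Agent.Herman

open Set Filter Topology MeasureTheory
open scoped Real

/-- The defect of the functional equation `(U (z + h) - U (z - h)) / (2 h) = U (-z) ^ 2`. -/
noncomputable def err (h : ℝ) (U : ℂ → ℂ) (z : ℂ) : ℂ :=
  (U (z + h) - U (z - h)) / (2 * h) - U (-z) ^ 2

/-- The twist density attached to `Q = 1 / U'`. -/
noncomputable def twd (h : ℝ) (Q : ℂ → ℂ) (z : ℂ) : ℂ :=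
  (Q (z + (h / 2 : ℝ)) * Q (-(z - (h / 2 : ℝ))) - Q (z - (h / 2 : ℝ)) * Q (-(z + (h / 2 : ℝ)))) /
    (2 * h)

lemma twd_eq (h : ℝ) (Q : ℂ → ℂ) (z : ℂ) : twd h Q z = (2 * h : ℂ)⁻¹ *
    (Q (z + (h / 2 : ℝ)) * Q (-(z - (h / 2 : ℝ))) - Q (z - (h / 2 : ℝ)) * Q (-(z + (h / 2 : ℝ)))) := by
  unfold twd
  rw [div_eq_inv_mul]

lemma ph_twd {h ρ δ B : ℝ} {Q : ℂ → ℂ} (hh : 0 < h) (hQ : PH ρ B Q) (hδ : 0 < δ) :
    PH (ρ - δ) (B ^ 2 / δ) (twd h Q) := by
  have hle : ρ - δ ≤ ρ := by linarith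
  have h1 : PH ρ (B * B + B * B) (fun z => Q (z + (h / 2 : ℝ)) * Q (-(z - (h / 2 : ℝ))) -
      Q (z - (h / 2 : ℝ)) * Q (-(z + (h / 2 : ℝ)))) :=
    ((hQ.shift _).mul (hQ.refl.shift_sub _)).sub ((hQ.shift_sub _).mul (hQ.refl.shift _))
  have h2 := h1.const_mul ((2 * h : ℂ)⁻¹)
  refine ⟨?_, ?_, ?_⟩
  · refine (h2.diff.mono (strip_mono hle)).congr ?_
    intro z _
    rw [twd_eq]
  · intro z hz
    rw [twd_eq, twd_eq]
    exact h2.per z (strip_mono hle hz)
  · intro z hz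
    have hz' := strip_mono hle hz
    have e : Q (z + (h / 2 : ℝ)) * Q (-(z - (h / 2 : ℝ))) - Q (z - (h / 2 : ℝ)) *
        Q (-(z + (h / 2 : ℝ))) =
        (Q (z + (h / 2 : ℝ)) - Q (z + (-(h / 2) : ℝ))) * Q (-(z - (h / 2 : ℝ))) +
          Q (z - (h / 2 : ℝ)) * (Q (-z + (h / 2 : ℝ)) - Q (-z + (-(h / 2) : ℝ))) := by
      have e1 : z + ((-(h / 2) : ℝ) : ℂ) = z - ((h / 2 : ℝ) : ℂ) := by push_cast; ring
      have e2 : -z + ((h / 2 : ℝ) : ℂ) = -(z - ((h / 2 : ℝ) : ℂ)) := by ring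
      have e3 : -z + ((-(h / 2) : ℝ) : ℂ) = -(z + ((h / 2 : ℝ) : ℂ)) := by push_cast; ring
      rw [e1, e2, e3]
      ring
    have a1 := hQ.norm_shift_sub_shift_le hδ hz (h / 2) (-(h / 2))
    have a2 := hQ.norm_shift_sub_shift_le hδ (neg_mem_strip hz) (h / 2) (-(h / 2))
    have e4 : |h / 2 - -(h / 2)| = h := by
      rw [sub_neg_eq_add, add_halves, abs_of_pos hh]
    rw [e4] at a1 a2
    have a3 : ‖Q (-(z - (h / 2 : ℝ)))‖ ≤ B := hQ.bdd _ (neg_mem_strip (sub_real_mem_strip hz' _))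
    have a4 : ‖Q (z - (h / 2 : ℝ))‖ ≤ B := hQ.bdd _ (sub_real_mem_strip hz' _)
    have hB : 0 ≤ B := le_trans (norm_nonneg _) a4
    unfold twd
    rw [e, norm_div]
    have e5 : ‖(2 * h : ℂ)‖ = 2 * h := by
      rw [norm_mul, Complex.norm_real, Real.norm_eq_abs, abs_of_pos hh]
      norm_num
    rw [e5, div_le_iff₀ (by positivity)]
    refine (norm_add_le _ _).trans ?_
    rw [norm_mul, norm_mul]
    calc _ ≤ (B / δ * h) * B + B * (B / δ * h) := by
          gcongr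
      _ = B ^ 2 / δ * (2 * h) := by ring

lemma deriv_err {h ρ : ℝ} {U : ℂ → ℂ} (hU : DifferentiableOn ℂ U (strip ρ)) {z : ℂ}
    (hz : z ∈ strip ρ) : deriv (err h U) z =
      (deriv U (z + h) - deriv U (z - h)) / (2 * h) + 2 * U (-z) * deriv U (-z) := by
  have d : ∀ w ∈ strip ρ, HasDerivAt U (deriv U w) w := fun w hw =>
    (hU.differentiableAt ((isOpen_strip ρ).mem_nhds hw)).hasDerivAt
  have h1 : HasDerivAt (fun w => U (w + h)) (deriv U (z + h)) z := by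
    exact (d _ (add_real_mem_strip hz h)).comp_add_const z (h : ℂ)
  have h2 : HasDerivAt (fun w => U (w - h)) (deriv U (z - h)) z := by
    exact (d _ (sub_real_mem_strip hz h)).comp_sub_const z (h : ℂ)
  have h3 : HasDerivAt (fun w => U (-w)) (-deriv U (-z)) z := by
    have := (d _ (neg_mem_strip hz)).comp z (hasDerivAt_neg z)
    simpa [Function.comp_def] using this
  have h4 := ((h1.sub h2).div_const (2 * h : ℂ)).sub (h3.pow 2)
  have h5 : deriv (err h U) z = _ := h4.deriv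
  rw [h5]
  push_cast
  ring

/-- **The Newton step.** -/
lemma newton_step {h γ ρ δ B ε : ℝ} {U : ℂ → ℂ} (hh : 0 < h) (hh1 : h ≤ 1) (hγ : 0 < γ)
    (hγ1 : γ ≤ 1) (hDC : DCs γ (2 * h)) (hδ : 0 < δ) (hδ1 : δ ≤ 1) (hδρ : 2 * δ < ρ) (hB : 1 ≤ B)
    (hBγ : 192 / γ ≤ B)
    (hU : DifferentiableOn ℂ U (strip ρ)) (hP : PH ρ B (deriv U))
    (hP' : ∀ z ∈ strip ρ, B⁻¹ ≤ ‖deriv U z‖) (he : PH ρ ε (err h U))
    (htw : B⁻¹ ≤ ‖mean (twd h (fun z => (deriv U z)⁻¹))‖) :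
    ∃ v : ℂ → ℂ, PH (ρ - 2 * δ) (16 * B ^ 9 * ε / δ ^ 10) v ∧
      PH (ρ - 2 * δ) (272 * B ^ 18 * ε ^ 2 / δ ^ 20) (err h (fun z => U z + v z)) := by
  have hρ : 0 < ρ := by linarith
  have hρδ : 0 < ρ - δ := by linarith
  have hB0 : 0 < B := by linarith
  have hε : 0 ≤ ε := he.nonneg hρ
  set P : ℂ → ℂ := deriv U with hPdef
  set Q : ℂ → ℂ := fun z => (P z)⁻¹ with hQdef
  have hQ : PH ρ B Q := by
    have := hP.inv (inv_pos.mpr hB0) hP'
    rwa [inv_inv] at this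
  have hPQ : ∀ z ∈ strip ρ, P z * Q z = 1 := by
    intro z hz
    have h1 := hP' z hz
    have h2 : P z ≠ 0 := by
      intro h0
      rw [h0, norm_zero] at h1
      have : 0 < B⁻¹ := inv_pos.mpr hB0
      linarith
    exact mul_inv_cancel₀ h2
  -- right hand side
  set G : ℂ → ℂ := fun z => -(err h U z) * P (-z) with hGdef
  have hG : PH ρ (ε * B) G := he.neg.mul hP.refl
  obtain ⟨y, hy, hyeq⟩ := cohom_plus (h := h) hG hDC hγ hγ1 rfl hh hδ hδ1
  obtain ⟨x, hx, hxeq⟩ := cohom_minus (h := h) hG hDC hγ rfl hh hδ hδ1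
  set b0 : ℝ := B ^ 2 * ε / δ ^ 4 with hb0
  have hb0' : 192 / γ * (ε * B) / δ ^ 4 ≤ b0 := by
    rw [hb0]
    have : 192 / γ * (ε * B) ≤ B ^ 2 * ε := by
      calc 192 / γ * (ε * B) ≤ B * (ε * B) := by gcongr
        _ = B ^ 2 * ε := by ring
    gcongr
  replace hy := hy.mono le_rfl hb0'
  replace hx := hx.mono le_rfl hb0'
  set n : ℂ → ℂ := fun z => y z + y (-z) with hndef
  set m' : ℂ → ℂ := fun z => x z + x (-z) with hm'def
  have hn : PH (ρ - δ) (b0 + b0) n := hy.add hy.refl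
  have hm' : PH (ρ - δ) (b0 + b0) m' := hx.add hx.refl
  set Np : ℂ → ℂ := fun z => Q (z + (h / 2 : ℝ)) * Q (-(z - (h / 2 : ℝ))) with hNpdef
  set Nm : ℂ → ℂ := fun z => Q (z - (h / 2 : ℝ)) * Q (-(z + (h / 2 : ℝ))) with hNmdef
  have hNp : PH ρ (B * B) Np := (hQ.shift _).mul (hQ.refl.shift_sub _)
  have hNm : PH ρ (B * B) Nm := (hQ.shift_sub _).mul (hQ.refl.shift _)
  set Nb : ℂ → ℂ := fun z => (1 / 2 : ℂ) * (Np z + Nm z) with hNbdef
  have hNb : PH ρ (B ^ 2) Nb := by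
    refine ((hNp.add hNm).const_mul (1 / 2 : ℂ)).mono le_rfl (le_of_eq ?_)
    norm_num
    ring
  set Nd : ℂ → ℂ := twd h Q with hNddef
  have hNd : PH (ρ - δ) (B ^ 2 / δ) Nd := ph_twd hh hQ hδ
  have h2h : (2 * h : ℂ) ≠ 0 := by
    have : (h : ℂ) ≠ 0 := Complex.ofReal_ne_zero.mpr hh.ne'
    simp [this]
  have hhC : (h : ℂ) ≠ 0 := Complex.ofReal_ne_zero.mpr hh.ne'
  have hNdeq : ∀ z, 2 * (h : ℂ) * Nd z = Np z - Nm z := by
    intro z
    show 2 * (h : ℂ) * twd h Q z = _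
    unfold twd
    rw [mul_div_cancel₀ _ h2h]
  have hNpb : ∀ z, Nb z + h * Nd z = Np z := by
    intro z
    have := hNdeq z
    show (1 / 2 : ℂ) * (Np z + Nm z) + h * Nd z = Np z
    linear_combination (1 / 2 : ℂ) * this
  have hNmb : ∀ z, Nb z - h * Nd z = Nm z := by
    intro z
    have := hNdeq z
    show (1 / 2 : ℂ) * (Np z + Nm z) - h * Nd z = Nm z
    linear_combination (-1 / 2 : ℂ) * this
  have hNp_even : ∀ z, Np (-z) = Np z := by
    intro z
    simp only [hNpdef]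
    rw [mul_comm]
    congr 2
    · ring
    · ring
  have hNm_even : ∀ z, Nm (-z) = Nm z := by
    intro z
    simp only [hNmdef]
    rw [mul_comm]
    congr 2
    · ring
    · ring
  have hNb_even : ∀ z, Nb (-z) = Nb z := by
    intro z
    simp only [hNbdef, hNp_even, hNm_even]
  have hNd_even : ∀ z, Nd (-z) = Nd z := by
    intro z
    have h1 := hNdeq z
    have h2 := hNdeq (-z)
    rw [hNp_even, hNm_even, ← h1] at h2
    exact mul_left_cancel₀ h2h h2
  -- the free constant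
  set tw : ℂ := mean Nd with htwdef
  have htw0 : tw ≠ 0 := by
    intro h0
    rw [h0, norm_zero] at htw
    have : 0 < B⁻¹ := inv_pos.mpr hB0
    linarith
  set m0 : ℂ := -(mean (fun z => m' z * Nd z) + mean (fun z => n z * Nb z)) / tw with hm0def
  have hb0nn : 0 ≤ b0 := by positivity
  have hm0 : ‖m0‖ ≤ 4 * (b0 * B ^ 3 / δ) := by
    have e1 : ‖mean (fun z => m' z * Nd z)‖ ≤ (b0 + b0) * (B ^ 2 / δ) :=
      norm_mean_le (hm'.mul hNd) hρδ
    have e2 : ‖mean (fun z => n z * Nb z)‖ ≤ (b0 + b0) * B ^ 2 :=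
      norm_mean_le (hn.mul (hNb.mono (by linarith) le_rfl)) hρδ
    have e3 : (b0 + b0) * B ^ 2 ≤ (b0 + b0) * (B ^ 2 / δ) := by
      apply mul_le_mul_of_nonneg_left _ (by positivity)
      rw [le_div_iff₀ hδ]
      nlinarith [pow_pos hB0 2]
    rw [hm0def, norm_div, norm_neg, div_eq_mul_inv]
    have e4 : ‖tw‖⁻¹ ≤ B := by
      have := inv_anti₀ (inv_pos.mpr hB0) htw
      rwa [inv_inv] at this
    calc _ ≤ ((b0 + b0) * (B ^ 2 / δ) + (b0 + b0) * (B ^ 2 / δ)) * B := by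
          apply mul_le_mul _ e4 (by positivity) (by positivity)
          exact (norm_add_le _ _).trans (add_le_add e1 (e2.trans e3))
      _ = 4 * (b0 * B ^ 3 / δ) := by ring
  set m : ℂ → ℂ := fun z => m' z + m0 with hmdef
  have hm : PH (ρ - δ) (6 * (b0 * B ^ 3 / δ)) m := by
    refine (hm'.add (PH.const (ρ - δ) m0)).mono le_rfl ?_
    have : b0 ≤ b0 * B ^ 3 / δ := by
      rw [le_div_iff₀ hδ]
      have h3 : (1 : ℝ) ≤ B ^ 3 := one_le_pow₀ hB
      nlinarith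
    linarith
  have hm_even : ∀ z, m (-z) = m z := by
    intro z
    simp only [hmdef, hm'def, neg_neg]
    ring
  have hn_even : ∀ z, n (-z) = n z := by
    intro z
    simp only [hndef, neg_neg]
    ring
  set σ : ℂ → ℂ := fun z => m z * Nb z + (h : ℂ) ^ 2 * (n z * Nd z) with hσdef
  set ν : ℂ → ℂ := fun z => m z * Nd z + n z * Nb z with hνdef
  have hσ_even : ∀ z, σ (-z) = σ z := by
    intro z; simp only [hσdef, hm_even, hNb_even, hn_even, hNd_even]
  have hν_even : ∀ z, ν (-z) = ν z := by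
    intro z; simp only [hνdef, hm_even, hNb_even, hn_even, hNd_even]
  set a : ℝ := b0 * B ^ 3 / δ with hadef
  have ha0 : 0 ≤ a := by positivity
  have hB2 : (1 : ℝ) ≤ B ^ 2 := one_le_pow₀ hB
  have hhn : ‖((h : ℂ) ^ 2)‖ ≤ 1 := by
    rw [norm_pow, Complex.norm_real, Real.norm_eq_abs, abs_of_pos hh]
    exact pow_le_one₀ hh.le hh1
  have hσ : PH (ρ - δ) (8 * a * B ^ 2) σ := by
    refine ((hm.mul (hNb.mono (by linarith) le_rfl)).add
      ((hn.mul hNd).const_mul ((h : ℂ) ^ 2))).mono le_rfl ?_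
    have e1 : ‖((h : ℂ) ^ 2)‖ * ((b0 + b0) * (B ^ 2 / δ)) ≤ 1 * (2 * a * B ^ 2) := by
      apply mul_le_mul hhn _ (by positivity) (by norm_num)
      have : (b0 + b0) * (B ^ 2 / δ) = 2 * (b0 * B ^ 2 / δ) * 1 := by ring
      rw [this]
      have e2 : b0 * B ^ 2 / δ ≤ a := by
        rw [hadef]
        gcongr
        norm_num
      gcongr
    linarith
  have hν : PH (ρ - δ) (8 * a * B ^ 2 / δ) ν := by
    refine ((hm.mul hNd).add (hn.mul (hNb.mono (by linarith) le_rfl))).mono le_rfl ?_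
    have e1 : (b0 + b0) * B ^ 2 ≤ 2 * a * B ^ 2 / δ := by
      rw [le_div_iff₀ hδ]
      have e2 : b0 ≤ a := by
        rw [hadef, le_div_iff₀ hδ]
        have h3 : (1 : ℝ) ≤ B ^ 3 := one_le_pow₀ hB
        nlinarith
      calc (b0 + b0) * B ^ 2 * δ ≤ (a + a) * B ^ 2 * 1 := by gcongr
        _ = 2 * a * B ^ 2 := by ring
    calc 6 * a * (B ^ 2 / δ) + (b0 + b0) * B ^ 2 ≤ 6 * a * (B ^ 2 / δ) + 2 * a * B ^ 2 / δ := by
          linarith
      _ = 8 * a * B ^ 2 / δ := by ring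
  have hνmean : mean ν = 0 := by
    have e1 : mean ν = mean (fun z => m' z * Nd z) + m0 * tw + mean (fun z => n z * Nb z) := by
      have f1 : ν = fun z => (m' z * Nd z + m0 * Nd z) + n z * Nb z := by
        funext z
        simp only [hνdef, hmdef]
        ring
      rw [f1, mean_add ((hm'.mul hNd).add (hNd.const_mul m0))
        (hn.mul (hNb.mono (by linarith) le_rfl)) hρδ,
        mean_add (hm'.mul hNd) (hNd.const_mul m0) hρδ, mean_const_mul]
    rw [e1, hm0def, div_mul_cancel₀ _ htw0]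
    ring
  obtain ⟨ys, hys, hyseq⟩ := cohom_plus (h := h) hσ hDC hγ hγ1 rfl hh hδ hδ1
  obtain ⟨xs, hxs, hxseq⟩ := cohom_minus (h := h) hν hDC hγ rfl hh hδ hδ1
  set b1 : ℝ := 8 * a * B ^ 3 / δ ^ 5 with hb1
  have hb1nn : 0 ≤ b1 := by positivity
  have hys' : PH (ρ - δ - δ) b1 ys := by
    refine hys.mono le_rfl ?_
    rw [hb1, div_le_div_iff₀ (by positivity) (by positivity)]
    calc 192 / γ * (8 * a * B ^ 2) * δ ^ 5 ≤ B * (8 * a * B ^ 2) * (δ ^ 4 * 1) := by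
          rw [show δ ^ 5 = δ ^ 4 * δ by ring]
          gcongr
      _ = 8 * a * B ^ 3 * δ ^ 4 := by ring
  have hxs' : PH (ρ - δ - δ) b1 xs := by
    refine hxs.mono le_rfl ?_
    rw [hb1, div_le_div_iff₀ (by positivity) (by positivity)]
    calc 192 / γ * (8 * a * B ^ 2 / δ) * δ ^ 5 ≤ B * (8 * a * B ^ 2 / δ) * δ ^ 5 := by
          gcongr
      _ = 8 * a * B ^ 3 * δ ^ 4 := by field_simp
  have hsub : ρ - 2 * δ ≤ ρ - δ - δ := by linarith
  have hsub2 : ρ - 2 * δ ≤ ρ - δ := by linarith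
  have hsub3 : ρ - 2 * δ ≤ ρ := by linarith
  set Y : ℂ → ℂ := fun z => (1 / 2 : ℂ) * (ys z + ys (-z)) with hYdef
  set X : ℂ → ℂ := fun z => (1 / 2 : ℂ) * (xs z - xs (-z)) with hXdef
  have hY : PH (ρ - δ - δ) b1 Y := by
    refine ((hys'.add hys'.refl).const_mul (1 / 2 : ℂ)).mono le_rfl (le_of_eq ?_)
    norm_num
    ring
  have hX : PH (ρ - δ - δ) b1 X := by
    refine ((hxs'.sub hxs'.refl).const_mul (1 / 2 : ℂ)).mono le_rfl (le_of_eq ?_)
    norm_num
    ring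
  have hYe : ∀ z, Y (-z) = Y z := by
    intro z; simp only [hYdef, neg_neg]; ring
  have hXo : ∀ z, X (-z) = -X z := by
    intro z; simp only [hXdef, neg_neg]; ring
  have hYeq : ∀ z ∈ strip (ρ - δ - δ), Y (z + (h / 2 : ℝ)) + Y (z - (h / 2 : ℝ)) = σ z := by
    intro z hz
    have h1 := hyseq z hz
    have h2 := hyseq (-z) (neg_mem_strip hz)
    rw [hσ_even] at h2
    simp only [hYdef]
    rw [show -(z + ((h / 2 : ℝ) : ℂ)) = -z - ((h / 2 : ℝ) : ℂ) by ring,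
      show -(z - ((h / 2 : ℝ) : ℂ)) = -z + ((h / 2 : ℝ) : ℂ) by ring]
    linear_combination (1 / 2 : ℂ) * h1 + (1 / 2 : ℂ) * h2
  have hXeq : ∀ z ∈ strip (ρ - δ - δ), X (z + (h / 2 : ℝ)) - X (z - (h / 2 : ℝ)) = h * ν z := by
    intro z hz
    have h1 := hxseq z hz
    have h2 := hxseq (-z) (neg_mem_strip hz)
    rw [hν_even] at h2
    rw [hνmean] at h1 h2
    simp only [hXdef]
    rw [show -(z + ((h / 2 : ℝ) : ℂ)) = -z - ((h / 2 : ℝ) : ℂ) by ring,
      show -(z - ((h / 2 : ℝ) : ℂ)) = -z + ((h / 2 : ℝ) : ℂ) by ring]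
    linear_combination (1 / 2 : ℂ) * h1 + (1 / 2 : ℂ) * h2
  set s : ℂ → ℂ := fun z => Y z + X z with hsdef
  have hs : PH (ρ - 2 * δ) (2 * b1) s := (hY.add hX).mono hsub (by linarith)
  set v : ℂ → ℂ := fun z => P z * s z with hvdef
  have hv : PH (ρ - 2 * δ) (B * (2 * b1)) v := (hP.mono hsub3 le_rfl).mul hs
  have hhalf : ((h / 2 : ℝ) : ℂ) + ((h / 2 : ℝ) : ℂ) = h := by push_cast; ring
  -- the two symmetric combinations of `s`
  have hs1 : ∀ z ∈ strip (ρ - 2 * δ), s (z + h) + s (-z) =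
      (m (z + (h / 2 : ℝ)) + h * n (z + (h / 2 : ℝ))) * Np (z + (h / 2 : ℝ)) := by
    intro z hz
    set w : ℂ := z + (h / 2 : ℝ) with hw
    have hwm : w ∈ strip (ρ - δ - δ) := strip_mono hsub (add_real_mem_strip hz _)
    have e1 : z + h = w + (h / 2 : ℝ) := by rw [hw, add_assoc, hhalf]
    have e2 : -z = -(w - (h / 2 : ℝ)) := by rw [hw]; ring
    have h1 := hYeq w hwm
    have h2 := hXeq w hwm
    have h3 := hNpb w
    rw [e1, e2]
    simp only [hsdef]
    rw [hYe, hXo, ← h3]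
    have e3 : σ w + h * ν w = (m w + h * n w) * (Nb w + h * Nd w) := by
      simp only [hσdef, hνdef]; ring
    rw [← e3]
    linear_combination h1 + h2
  have hs2 : ∀ z ∈ strip (ρ - 2 * δ), s (z - h) + s (-z) =
      (m (z - (h / 2 : ℝ)) - h * n (z - (h / 2 : ℝ))) * Nm (z - (h / 2 : ℝ)) := by
    intro z hz
    set w : ℂ := z - (h / 2 : ℝ) with hw
    have hwm : w ∈ strip (ρ - δ - δ) := strip_mono hsub (sub_real_mem_strip hz _)
    have e1 : z - h = w - (h / 2 : ℝ) := by rw [hw, sub_sub, hhalf]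
    have e2 : -z = -(w + (h / 2 : ℝ)) := by rw [hw]; ring
    have h1 := hYeq w hwm
    have h2 := hXeq w hwm
    have h3 := hNmb w
    rw [e1, e2]
    simp only [hsdef]
    rw [hYe, hXo, ← h3]
    have e3 : σ w - h * ν w = (m w - h * n w) * (Nb w - h * Nd w) := by
      simp only [hσdef, hνdef]; ring
    rw [← e3]
    linear_combination h1 - h2
  -- the linearised equation
  have hlin : ∀ z ∈ strip (ρ - 2 * δ), P (z + h) * (s (z + h) + s (-z)) -
      P (z - h) * (s (z - h) + s (-z)) = -(2 * h * err h U z) := by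
    intro z hz
    have hz1 := strip_mono hsub2 hz
    have hz2 := strip_mono hsub3 hz
    have p1 := hPQ _ (add_real_mem_strip hz2 h)
    have p2 := hPQ _ (sub_real_mem_strip hz2 h)
    have p3 := hPQ _ (neg_mem_strip hz2)
    have hPne : P (-z) ≠ 0 := left_ne_zero_of_mul_eq_one p3
    have q1 : Np (z + (h / 2 : ℝ)) = Q (z + h) * Q (-z) := by
      simp only [hNpdef]
      rw [add_assoc, hhalf, add_sub_cancel_right]
    have q2 : Nm (z - (h / 2 : ℝ)) = Q (z - h) * Q (-z) := by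
      simp only [hNmdef]
      rw [sub_sub, hhalf, sub_add_cancel]
    have r1 := hs1 z hz
    have r2 := hs2 z hz
    rw [q1] at r1
    rw [q2] at r2
    have t1 := hyeq z hz1
    have t2 := hyeq (-z) (neg_mem_strip hz1)
    have t3 := hxeq z hz1
    have t4 := hxeq (-z) (neg_mem_strip hz1)
    have hG1 : G z = -(err h U z) * P (-z) := rfl
    apply mul_left_cancel₀ hPne
    rw [r1, r2]
    have u1 : m (z + (h / 2 : ℝ)) - m (z - (h / 2 : ℝ)) = h * (G z - G (-z)) := by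
      simp only [hmdef, hm'def]
      rw [show -(z + ((h / 2 : ℝ) : ℂ)) = -z - ((h / 2 : ℝ) : ℂ) by ring,
        show -(z - ((h / 2 : ℝ) : ℂ)) = -z + ((h / 2 : ℝ) : ℂ) by ring]
      linear_combination t3 - t4
    have u2 : n (z + (h / 2 : ℝ)) + n (z - (h / 2 : ℝ)) = G z + G (-z) := by
      simp only [hndef]
      rw [show -(z + ((h / 2 : ℝ) : ℂ)) = -z - ((h / 2 : ℝ) : ℂ) by ring,
        show -(z - ((h / 2 : ℝ) : ℂ)) = -z + ((h / 2 : ℝ) : ℂ) by ring]
      linear_combination t1 + t2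
    calc P (-z) * (P (z + h) * ((m (z + (h / 2 : ℝ)) + h * n (z + (h / 2 : ℝ))) *
            (Q (z + h) * Q (-z))) -
          P (z - h) * ((m (z - (h / 2 : ℝ)) - h * n (z - (h / 2 : ℝ))) * (Q (z - h) * Q (-z))))
        = (P (z + h) * Q (z + h)) * (P (-z) * Q (-z)) *
            (m (z + (h / 2 : ℝ)) + h * n (z + (h / 2 : ℝ))) -
          (P (z - h) * Q (z - h)) * (P (-z) * Q (-z)) *
            (m (z - (h / 2 : ℝ)) - h * n (z - (h / 2 : ℝ))) := by ring
      _ = (m (z + (h / 2 : ℝ)) - m (z - (h / 2 : ℝ))) +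
            h * (n (z + (h / 2 : ℝ)) + n (z - (h / 2 : ℝ))) := by
          rw [p1, p2, p3]; ring
      _ = 2 * h * G z := by rw [u1, u2]; ring
      _ = P (-z) * -(2 * h * err h U z) := by rw [hG1]; ring
  refine ⟨v, hv.mono le_rfl (le_of_eq ?_), ?_⟩
  · rw [hb1, hadef, hb0]
    field_simp
    ring
  · -- the new error
    have hde : PH (ρ - δ) (ε / δ) (deriv (err h U)) := he.deriv hδ
    have hnew : ∀ z ∈ strip (ρ - 2 * δ), err h (fun z => U z + v z) z =
        -(deriv (err h U) z * s (-z) + v (-z) * v (-z)) := by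
      intro z hz
      have hz2 := strip_mono hsub3 hz
      rw [deriv_err hU hz2]
      have h1 := hlin z hz
      unfold err at h1 ⊢
      simp only [hvdef]
      have h2 : P (z + h) * s (z + h) - P (z - h) * s (z - h) =
          -(2 * h * ((U (z + h) - U (z - h)) / (2 * h) - U (-z) ^ 2)) -
            (P (z + h) - P (z - h)) * s (-z) := by
        linear_combination h1
      have h3 : (U (z + h) + P (z + h) * s (z + h) - (U (z - h) + P (z - h) * s (z - h))) / (2 * h) =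
          (U (z + h) - U (z - h)) / (2 * h) +
            (P (z + h) * s (z + h) - P (z - h) * s (z - h)) / (2 * h) := by ring
      rw [h3, h2]
      field_simp
      ring
    have hA := ((hde.mono hsub2 le_rfl).mul hs.refl).add (hv.refl.mul hv.refl)
    refine (hA.neg.congr hnew).mono le_rfl ?_
    have e1 : b1 = 8 * B ^ 8 * ε / δ ^ 10 := by
      rw [hb1, hadef, hb0]
      field_simp
    rw [e1]
    have e2 : ε / δ * (2 * (8 * B ^ 8 * ε / δ ^ 10)) = 16 * B ^ 8 * ε ^ 2 / δ ^ 11 := by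
      field_simp
      ring
    have e3 : B * (2 * (8 * B ^ 8 * ε / δ ^ 10)) * (B * (2 * (8 * B ^ 8 * ε / δ ^ 10))) =
        256 * B ^ 18 * ε ^ 2 / δ ^ 20 := by
      field_simp
      ring
    rw [e2, e3]
    have e4 : 16 * B ^ 8 * ε ^ 2 / δ ^ 11 ≤ 16 * B ^ 18 * ε ^ 2 / δ ^ 20 := by
      rw [div_le_div_iff₀ (by positivity) (by positivity)]
      have h1 : δ ^ 20 ≤ δ ^ 11 := pow_le_pow_of_le_one hδ.le hδ1 (by norm_num)
      have h2 : B ^ 8 ≤ B ^ 18 := pow_le_pow_right₀ hB (by norm_num)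
      gcongr
    calc _ ≤ 16 * B ^ 18 * ε ^ 2 / δ ^ 20 + 256 * B ^ 18 * ε ^ 2 / δ ^ 20 := by linarith
      _ = 272 * B ^ 18 * ε ^ 2 / δ ^ 20 := by ring

end Pool.Agent.Herman
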