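import Mathlib
import Pool.Agent.Herman.Step

/-!
# Convergence of the Newton scheme
-/

set_option autoImplicit false

namespace Pool.Agent.Herman

open Set Filter Topology MeasureTheory
open scoped Real

/-- Bilinear version of `twd`. -/
noncomputable def twd2 (h : ℝ) (A C : ℂ → ℂ) (z : ℂ) : ℂ :=
  (A (z + (h / 2 : ℝ)) * C (-(z - (h / 2 : ℝ))) - A (z - (h / 2 : ℝ)) * C (-(z + (h / 2 : ℝ)))) /
    (2 * h)

lemma norm_twd2_le {h ρ δ a c : ℝ} {A C : ℂ → ℂ} (hh : 0 < h) (hA : PH ρ a A) (hC : PH ρ c C)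
    (hδ : 0 < δ) {z : ℂ} (hz : z ∈ strip (ρ - δ)) : ‖twd2 h A C z‖ ≤ a * c / δ := by
  have hle : ρ - δ ≤ ρ := by linarith
  have hz' := strip_mono hle hz
  have e : A (z + (h / 2 : ℝ)) * C (-(z - (h / 2 : ℝ))) - A (z - (h / 2 : ℝ)) *
      C (-(z + (h / 2 : ℝ))) =
      (A (z + (h / 2 : ℝ)) - A (z + (-(h / 2) : ℝ))) * C (-(z - (h / 2 : ℝ))) +
        A (z - (h / 2 : ℝ)) * (C (-z + (h / 2 : ℝ)) - C (-z + (-(h / 2) : ℝ))) := by
    have e1 : z + ((-(h / 2) : ℝ) : ℂ) = z - ((h / 2 : ℝ) : ℂ) := by push_cast; ring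
    have e2 : -z + ((h / 2 : ℝ) : ℂ) = -(z - ((h / 2 : ℝ) : ℂ)) := by ring
    have e3 : -z + ((-(h / 2) : ℝ) : ℂ) = -(z + ((h / 2 : ℝ) : ℂ)) := by push_cast; ring
    rw [e1, e2, e3]
    ring
  have a1 := hA.norm_shift_sub_shift_le hδ hz (h / 2) (-(h / 2))
  have a2 := hC.norm_shift_sub_shift_le hδ (neg_mem_strip hz) (h / 2) (-(h / 2))
  have e4 : |h / 2 - -(h / 2)| = h := by
    rw [sub_neg_eq_add, add_halves, abs_of_pos hh]
  rw [e4] at a1 a2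
  have a3 : ‖C (-(z - (h / 2 : ℝ)))‖ ≤ c := hC.bdd _ (neg_mem_strip (sub_real_mem_strip hz' _))
  have a4 : ‖A (z - (h / 2 : ℝ))‖ ≤ a := hA.bdd _ (sub_real_mem_strip hz' _)
  have ha : 0 ≤ a := le_trans (norm_nonneg _) a4
  have hc : 0 ≤ c := le_trans (norm_nonneg _) a3
  unfold twd2
  rw [e, norm_div]
  have e5 : ‖(2 * h : ℂ)‖ = 2 * h := by
    rw [norm_mul, Complex.norm_real, Real.norm_eq_abs, abs_of_pos hh]
    norm_num
  rw [e5, div_le_iff₀ (by positivity)]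
  refine (norm_add_le _ _).trans ?_
  rw [norm_mul, norm_mul]
  calc _ ≤ (a / δ * h) * c + a * (c / δ * h) := by
        gcongr
    _ = a * c / δ * (2 * h) := by ring

lemma norm_mean_sub_le {f g : ℂ → ℂ} {C : ℝ} (hf : Continuous fun x : ℝ => f x)
    (hg : Continuous fun x : ℝ => g x) (h : ∀ x : ℝ, ‖f x - g x‖ ≤ C) :
    ‖mean f - mean g‖ ≤ C := by
  unfold mean
  rw [← intervalIntegral.integral_sub (hf.intervalIntegrable _ _) (hg.intervalIntegrable _ _)]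
  have := intervalIntegral.norm_integral_le_of_norm_le_const (a := (0 : ℝ)) (b := 1)
    (f := fun x : ℝ => f x - g x) (C := C) (fun x _ => h x)
  simpa using this

/-- Stability of the mean twist. -/
lemma norm_mean_twd_sub_le {h ρ a b q : ℝ} {Q Q₀ : ℂ → ℂ} (hh : 0 < h) (hρ : 0 < ρ)
    (hQ : PH ρ a Q) (hQ₀ : PH ρ b Q₀) (hq : ∀ z ∈ strip ρ, ‖Q z - Q₀ z‖ ≤ q) :
    ‖mean (twd h Q) - mean (twd h Q₀)‖ ≤ 2 * q * (a + b) / ρ := by
  have hd : PH ρ q (fun z => Q z - Q₀ z) := ⟨hQ.diff.sub hQ₀.diff, fun z hz => by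
    simp only [hQ.per z hz, hQ₀.per z hz], hq⟩
  have hρ2 : 0 < ρ / 2 := by positivity
  have hr : ∀ x : ℝ, (x : ℂ) ∈ strip (ρ - ρ / 2) := fun x => real_mem_strip (by linarith) x
  apply norm_mean_sub_le
  · exact (ph_twd hh hQ hρ2).continuous_real (by linarith)
  · exact (ph_twd hh hQ₀ hρ2).continuous_real (by linarith)
  · intro x
    have e : twd h Q x - twd h Q₀ x =
        twd2 h (fun z => Q z - Q₀ z) Q x + twd2 h Q₀ (fun z => Q z - Q₀ z) x := by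
      unfold twd twd2
      ring
    rw [e]
    have h1 := norm_twd2_le hh hd hQ hρ2 (hr x)
    have h2 := norm_twd2_le hh hQ₀ hd hρ2 (hr x)
    calc _ ≤ q * a / (ρ / 2) + b * q / (ρ / 2) := (norm_add_le _ _).trans (add_le_add h1 h2)
      _ = 2 * q * (a + b) / ρ := by field_simp

/-- The data attached to the unperturbed solution. -/
structure Base (h ρ M m τ : ℝ) (U : ℂ → ℂ) : Prop where
  diff : DifferentiableOn ℂ U (strip ρ)
  per : ∀ z ∈ strip ρ, U (z + 1) = U z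
  ph : PH ρ M (deriv U)
  low : ∀ z ∈ strip ρ, m ≤ ‖deriv U z‖
  tw : τ ≤ ‖mean (twd h (fun z => (deriv U z)⁻¹))‖

/-- The invariant of the iteration. -/
structure Inv (h ρ η ε : ℝ) (U₀ U : ℂ → ℂ) : Prop where
  diff : DifferentiableOn ℂ U (strip ρ)
  per : ∀ z ∈ strip ρ, U (z + 1) = U z
  close : ∀ z ∈ strip ρ, ‖deriv U z - deriv U₀ z‖ ≤ η
  err : PH ρ ε (err h U)

/-- One step of the iteration, in terms of the invariant. -/
lemma inv_step {h γ ρ₀ ρ δ B M m τ η η' ε : ℝ} {U₀ U : ℂ → ℂ} (hh : 0 < h) (hh1 : h ≤ 1)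
    (hγ : 0 < γ) (hγ1 : γ ≤ 1) (hDC : DCs γ (2 * h)) (hδ : 0 < δ) (hδ1 : δ ≤ 1)
    (hρρ₀ : ρ ≤ ρ₀) (hρ₀ρ : ρ₀ / 2 ≤ ρ - 3 * δ) (hρ₀ : 0 < ρ₀)
    (hm : 0 < m) (hτ : 0 < τ) (hM : 0 ≤ M)
    (hB : B = 192 / γ + M + m + 2 / m + 2 / τ + 1)
    (h0 : Base h ρ₀ M m τ U₀) (hU : Inv h ρ η ε U₀ U)
    (hη0 : 0 ≤ η) (hη1 : η ≤ m / 2) (hητ : 12 * η / m ^ 3 * (1 / (ρ₀ / 2)) ≤ τ / 2)
    (hη' : η + 16 * B ^ 9 * ε / δ ^ 11 ≤ η') :
    ∃ v : ℂ → ℂ, PH (ρ - 3 * δ) (16 * B ^ 9 * ε / δ ^ 10) v ∧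
      Inv h (ρ - 3 * δ) η' (272 * B ^ 18 * ε ^ 2 / δ ^ 20) U₀ (fun z => U z + v z) := by
  have hρ : 0 < ρ := by linarith
  have hsub := strip_mono hρρ₀
  have g1 : 0 < 192 / γ := by positivity
  have g2 : 0 < 2 / m := by positivity
  have g3 : 0 < 2 / τ := by positivity
  have hB1 : 1 ≤ B := by rw [hB]; linarith
  have hB0 : 0 < B := by linarith
  -- lower bound for the derivative
  have hlow : ∀ z ∈ strip ρ, m / 2 ≤ ‖deriv U z‖ := by
    intro z hz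
    have h1 := h0.low z (hsub hz)
    have h2 := hU.close z hz
    have h3 : ‖deriv U₀ z‖ ≤ ‖deriv U z‖ + ‖deriv U z - deriv U₀ z‖ := by
      have := norm_sub_le (deriv U z) (deriv U z - deriv U₀ z)
      rwa [sub_sub_cancel] at this
    linarith
  have hper' : ∀ z ∈ strip ρ, deriv U (z + 1) = deriv U z := by
    intro z hz
    have : (fun w => U (w + 1)) =ᶠ[𝓝 z] U := by
      filter_upwards [(isOpen_strip ρ).mem_nhds hz] with w hw using hU.per w hw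
    have h2 := this.deriv_eq
    rw [deriv_comp_add_const] at h2
    exact h2
  have hP : PH ρ B (deriv U) := by
    refine ⟨hU.diff.deriv (isOpen_strip ρ), hper', fun z hz => ?_⟩
    have h1 := h0.ph.bdd z (hsub hz)
    have h2 := hU.close z hz
    have h3 : ‖deriv U z‖ ≤ ‖deriv U₀ z‖ + ‖deriv U z - deriv U₀ z‖ := by
      have := norm_add_le (deriv U₀ z) (deriv U z - deriv U₀ z)
      rwa [add_sub_cancel] at this
    rw [hB]
    linarith
  have hBinv : B⁻¹ ≤ m / 2 := by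
    rw [inv_le_comm₀ hB0 (by positivity), inv_div, hB]
    linarith
  have hP' : ∀ z ∈ strip ρ, B⁻¹ ≤ ‖deriv U z‖ := fun z hz => hBinv.trans (hlow z hz)
  -- the twist
  have hQ : PH ρ (2 / m) (fun z => (deriv U z)⁻¹) := by
    have := hP.inv (by positivity : 0 < m / 2) hlow
    rwa [inv_div] at this
  have hQ₀ : PH ρ (1 / m) (fun z => (deriv U₀ z)⁻¹) := by
    have := (h0.ph.mono hρρ₀ le_rfl).inv hm (fun z hz => h0.low z (hsub hz))
    rwa [← one_div] at this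
  have hq : ∀ z ∈ strip ρ, ‖(deriv U z)⁻¹ - (deriv U₀ z)⁻¹‖ ≤ 2 * η / m ^ 2 := by
    intro z hz
    have h1 := hlow z hz
    have h2 := h0.low z (hsub hz)
    have n1 : deriv U z ≠ 0 := norm_pos_iff.mp (by linarith)
    have n2 : deriv U₀ z ≠ 0 := norm_pos_iff.mp (by linarith)
    rw [inv_sub_inv n1 n2, norm_div, norm_mul, div_le_div_iff₀ (by positivity) (by positivity)]
    have h3 : ‖deriv U₀ z - deriv U z‖ ≤ η := by
      rw [norm_sub_rev]; exact hU.close z hz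
    have h4 : m / 2 * m ≤ ‖deriv U z‖ * ‖deriv U₀ z‖ := by gcongr
    calc ‖deriv U₀ z - deriv U z‖ * m ^ 2 ≤ η * m ^ 2 := by gcongr
      _ = 2 * η * (m / 2 * m) := by ring
      _ ≤ 2 * η * (‖deriv U z‖ * ‖deriv U₀ z‖) := by gcongr
  have htw : B⁻¹ ≤ ‖mean (twd h (fun z => (deriv U z)⁻¹))‖ := by
    have h1 := norm_mean_twd_sub_le hh hρ hQ hQ₀ hq
    have h2 : 2 * (2 * η / m ^ 2) * (2 / m + 1 / m) / ρ ≤ τ / 2 := by
      refine le_trans ?_ hητ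
      have e : 2 * (2 * η / m ^ 2) * (2 / m + 1 / m) / ρ = 12 * η / m ^ 3 * (1 / ρ) := by
        field_simp
        ring
      rw [e]
      have : ρ₀ / 2 ≤ ρ := by linarith
      gcongr
    have h3 := h0.tw
    have h4 : ‖mean (twd h (fun z => (deriv U₀ z)⁻¹))‖ ≤ ‖mean (twd h (fun z => (deriv U z)⁻¹))‖ +
        ‖mean (twd h (fun z => (deriv U z)⁻¹)) - mean (twd h (fun z => (deriv U₀ z)⁻¹))‖ := by
      have := norm_sub_le (mean (twd h (fun z => (deriv U z)⁻¹)))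
        (mean (twd h (fun z => (deriv U z)⁻¹)) - mean (twd h (fun z => (deriv U₀ z)⁻¹)))
      rwa [sub_sub_cancel] at this
    have h5 : B⁻¹ ≤ τ / 2 := by
      rw [inv_le_comm₀ hB0 (by positivity), inv_div, hB]
      linarith
    linarith
  obtain ⟨v, hv, hverr⟩ := newton_step hh hh1 hγ hγ1 hDC hδ hδ1 (by linarith) hB1
    (by rw [hB]; linarith) hU.diff hP hP' hU.err htw
  refine ⟨v, hv.mono (by linarith) le_rfl, ?_⟩
  have hs1 : strip (ρ - 3 * δ) ⊆ strip ρ := strip_mono (by linarith)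
  have hs2 : strip (ρ - 3 * δ) ⊆ strip (ρ - 2 * δ) := strip_mono (by linarith)
  refine ⟨(hU.diff.mono hs1).add (hv.diff.mono hs2), ?_, ?_, hverr.mono (by linarith) le_rfl⟩
  · intro z hz
    simp only [hU.per z (hs1 hz), hv.per z (hs2 hz)]
  · intro z hz
    have d1 : DifferentiableAt ℂ U z := hU.diff.differentiableAt ((isOpen_strip ρ).mem_nhds (hs1 hz))
    have d2 : DifferentiableAt ℂ v z := hv.differentiableAt (hs2 hz)
    have e : deriv (fun z => U z + v z) z = deriv U z + deriv v z := deriv_add d1 d2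
    rw [e]
    have hz' : z ∈ strip (ρ - 2 * δ - δ) := strip_mono (by linarith) hz
    have h1 := hv.norm_deriv_le hδ hz'
    have h2 := hU.close z (hs1 hz)
    have e2 : 16 * B ^ 9 * ε / δ ^ 10 / δ = 16 * B ^ 9 * ε / δ ^ 11 := by
      rw [div_div]; ring
    rw [e2] at h1
    calc ‖deriv U z + deriv v z - deriv U₀ z‖ = ‖(deriv U z - deriv U₀ z) + deriv v z‖ := by
          congr 1; ring
      _ ≤ η + 16 * B ^ 9 * ε / δ ^ 11 := (norm_add_le _ _).trans (add_le_add h2 h1)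
      _ ≤ η' := hη'

/-- **The KAM theorem** for the equation `(U (z + h) - U (z - h)) / (2 h) = U (-z) ^ 2`. -/
theorem kam {γ ρ₀ M m τ ζ : ℝ} (hγ : 0 < γ) (hγ1 : γ ≤ 1) (hρ₀ : 0 < ρ₀) (hρ₀1 : ρ₀ ≤ 1)
    (hM : 0 ≤ M) (hm : 0 < m) (hτ : 0 < τ) (hζ : 0 < ζ) :
    ∃ ε₀ : ℝ, 0 < ε₀ ∧ ∀ (h : ℝ) (U₀ : ℂ → ℂ), 0 < h → h ≤ 1 → DCs γ (2 * h) →
      Base h ρ₀ M m τ U₀ → PH ρ₀ ε₀ (err h U₀) →
      ∃ U : ℂ → ℂ, DifferentiableOn ℂ U (strip (ρ₀ / 2)) ∧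
        (∀ z ∈ strip (ρ₀ / 2), U (z + 1) = U z) ∧
        (∀ z ∈ strip (ρ₀ / 2), err h U z = 0) ∧
        (∀ z ∈ strip (ρ₀ / 2), ‖U z - U₀ z‖ ≤ ζ) := by
  obtain ⟨B, hB⟩ : ∃ B : ℝ, B = 192 / γ + M + m + 2 / m + 2 / τ + 1 := ⟨_, rfl⟩
  have g1 : 0 < 192 / γ := by positivity
  have g2 : 0 < 2 / m := by positivity
  have g3 : 0 < 2 / τ := by positivity
  have hB1 : 1 ≤ B := by rw [hB]; linarith
  have hB0 : 0 < B := by linarith
  obtain ⟨D, hD⟩ : ∃ D : ℝ, D = 12 / ρ₀ := ⟨_, rfl⟩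
  have hD0 : 0 < D := by rw [hD]; positivity
  have hρD : ρ₀ / 12 = D⁻¹ := by rw [hD, inv_div]
  -- the size allowed for the derivative
  obtain ⟨η, hη0, hη1, hητ⟩ : ∃ η : ℝ, 0 < η ∧ η ≤ m / 2 ∧
      12 * η / m ^ 3 * (1 / (ρ₀ / 2)) ≤ τ / 2 := by
    refine ⟨min (m / 2) (τ * m ^ 3 * ρ₀ / 48), by positivity, min_le_left _ _, ?_⟩
    have h1 := min_le_right (m / 2) (τ * m ^ 3 * ρ₀ / 48)
    calc 12 * min (m / 2) (τ * m ^ 3 * ρ₀ / 48) / m ^ 3 * (1 / (ρ₀ / 2))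
        ≤ 12 * (τ * m ^ 3 * ρ₀ / 48) / m ^ 3 * (1 / (ρ₀ / 2)) := by gcongr
      _ = τ / 2 := by field_simp; ring
  obtain ⟨ε₀, hε0, hc1, hc2, hc3⟩ : ∃ ε₀ : ℝ, 0 < ε₀ ∧
      272 * B ^ 18 * D ^ 20 * 2 ^ 20 * ε₀ ≤ 1 ∧ 32 * B ^ 9 * D ^ 11 * ε₀ ≤ η ∧
      32 * B ^ 9 * D ^ 10 * ε₀ ≤ ζ := by
    refine ⟨min (1 / (272 * B ^ 18 * D ^ 20 * 2 ^ 20))
      (min (η / (32 * B ^ 9 * D ^ 11)) (ζ / (32 * B ^ 9 * D ^ 10))), by positivity, ?_, ?_, ?_⟩
    · have := min_le_left (1 / (272 * B ^ 18 * D ^ 20 * 2 ^ 20))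
        (min (η / (32 * B ^ 9 * D ^ 11)) (ζ / (32 * B ^ 9 * D ^ 10)))
      rwa [le_div_iff₀' (by positivity)] at this
    · have := (min_le_right (1 / (272 * B ^ 18 * D ^ 20 * 2 ^ 20))
        (min (η / (32 * B ^ 9 * D ^ 11)) (ζ / (32 * B ^ 9 * D ^ 10)))).trans (min_le_left _ _)
      rwa [le_div_iff₀' (by positivity)] at this
    · have := (min_le_right (1 / (272 * B ^ 18 * D ^ 20 * 2 ^ 20))
        (min (η / (32 * B ^ 9 * D ^ 11)) (ζ / (32 * B ^ 9 * D ^ 10)))).trans (min_le_right _ _)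
      rwa [le_div_iff₀' (by positivity)] at this
  refine ⟨ε₀, hε0, ?_⟩
  intro h U₀ hh hh1 hDC h0 herr
  obtain ⟨κ, hκ⟩ : ∃ κ : ℝ, κ = 16 * B ^ 9 * D ^ 10 * ε₀ := ⟨_, rfl⟩
  have hκ0 : 0 < κ := by rw [hκ]; positivity
  have step : ∀ (n : ℕ) (U : ℂ → ℂ),
      Inv h (ρ₀ / 2 + ρ₀ / 2 * (1 / 2) ^ n) (η * (1 - (1 / 2) ^ n)) (ε₀ * ((1 / 2) ^ n) ^ 20) U₀ U →
      ∃ v : ℂ → ℂ, PH (ρ₀ / 2 + ρ₀ / 2 * (1 / 2) ^ (n + 1)) (κ * (1 / 2) ^ n) v ∧
        Inv h (ρ₀ / 2 + ρ₀ / 2 * (1 / 2) ^ (n + 1)) (η * (1 - (1 / 2) ^ (n + 1)))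
          (ε₀ * ((1 / 2) ^ (n + 1)) ^ 20) U₀ (fun z => U z + v z) := by
    intro n U hU
    have ht0' : (0 : ℝ) < (1 / 2) ^ n := by positivity
    have ht1' : ((1 : ℝ) / 2) ^ n ≤ 1 := pow_le_one₀ (by norm_num) (by norm_num)
    rw [pow_succ]
    obtain ⟨t, ht⟩ : ∃ t : ℝ, t = (1 / 2) ^ n := ⟨_, rfl⟩
    rw [← ht] at hU ht0' ht1' ⊢
    have hδ : 0 < ρ₀ / 12 * t := by positivity
    have hδ1 : ρ₀ / 12 * t ≤ 1 := by nlinarith
    have hδD : ρ₀ / 12 * t = t / D := by rw [hρD]; ring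
    obtain ⟨v, hv, hUv⟩ := inv_step (η' := η * (1 - t * (1 / 2))) hh hh1 hγ hγ1 hDC hδ hδ1
      (ρ₀ := ρ₀) (by nlinarith) (by nlinarith) hρ₀ hm hτ hM hB h0 hU
      (mul_nonneg hη0.le (by linarith)) (by nlinarith) (by
        refine le_trans ?_ hητ
        have : η * (1 - t) ≤ η := by nlinarith
        gcongr) (by
        rw [hδD]
        have e : 16 * B ^ 9 * (ε₀ * t ^ 20) / (t / D) ^ 11 = (16 * B ^ 9 * D ^ 11 * ε₀) * t ^ 9 := by
          field_simp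
        rw [e]
        have h1 : t ^ 9 ≤ t := by
          calc t ^ 9 ≤ t ^ 1 := pow_le_pow_of_le_one ht0'.le ht1' (by norm_num)
            _ = t := pow_one t
        have h2 : (16 * B ^ 9 * D ^ 11 * ε₀) * t ^ 9 ≤ (η / 2) * t := by
          have : 16 * B ^ 9 * D ^ 11 * ε₀ ≤ η / 2 := by linarith
          gcongr
        linarith)
    have hρeq : ρ₀ / 2 + ρ₀ / 2 * t - 3 * (ρ₀ / 12 * t) = ρ₀ / 2 + ρ₀ / 2 * (t * (1 / 2)) := by ring
    rw [hρeq] at hv hUv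
    refine ⟨v, hv.mono le_rfl ?_, ?_⟩
    · rw [hδD, hκ]
      have e : 16 * B ^ 9 * (ε₀ * t ^ 20) / (t / D) ^ 10 = (16 * B ^ 9 * D ^ 10 * ε₀) * t ^ 10 := by
        field_simp
      rw [e]
      have h1 : t ^ 10 ≤ t := by
        calc t ^ 10 ≤ t ^ 1 := pow_le_pow_of_le_one ht0'.le ht1' (by norm_num)
          _ = t := pow_one t
      gcongr
    · refine ⟨hUv.diff, hUv.per, hUv.close, hUv.err.mono le_rfl ?_⟩
      rw [hδD]
      have e : 272 * B ^ 18 * (ε₀ * t ^ 20) ^ 2 / (t / D) ^ 20 =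
          (272 * B ^ 18 * D ^ 20 * 2 ^ 20 * ε₀) * (ε₀ * (t * (1 / 2)) ^ 20) := by
        field_simp
      rw [e]
      have : 0 ≤ ε₀ * (t * (1 / 2)) ^ 20 := by positivity
      nlinarith
  choose! V hV using step
  let Us : ℕ → (ℂ → ℂ) := fun n => Nat.rec U₀ (fun n U => fun z => U z + V n U z) n
  have hUs0 : Us 0 = U₀ := rfl
  have hUsS : ∀ n, Us (n + 1) = fun z => Us n z + V n (Us n) z := fun n => rfl
  have hInv : ∀ n, Inv h (ρ₀ / 2 + ρ₀ / 2 * (1 / 2) ^ n) (η * (1 - (1 / 2) ^ n))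
      (ε₀ * ((1 / 2) ^ n) ^ 20) U₀ (Us n) := by
    intro n
    induction n with
    | zero =>
      rw [hUs0]
      simp only [pow_zero, mul_one, sub_self, mul_zero, one_pow, add_halves]
      exact ⟨h0.diff, h0.per, fun z _ => by simp, herr⟩
    | succ n ih =>
      rw [hUsS]
      exact (hV n _ ih).2
  set v : ℕ → ℂ → ℂ := fun n => V n (Us n) with hv
  have hvn : ∀ n, PH (ρ₀ / 2) (κ * (1 / 2) ^ n) (v n) := fun n =>
    ((hV n _ (hInv n)).1).mono (by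
      have : 0 < ρ₀ / 2 * (1 / 2) ^ (n + 1) := by positivity
      linarith) le_rfl
  have hgeo : Summable (fun n : ℕ => κ * (1 / 2 : ℝ) ^ n) := summable_geometric_two.mul_left κ
  have hgeosum : ∑' n : ℕ, κ * (1 / 2 : ℝ) ^ n = 2 * κ := by
    rw [tsum_mul_left, tsum_geometric_two]; ring
  have hbd : ∀ (n : ℕ) (z : ℂ), z ∈ strip (ρ₀ / 2) → ‖v n z‖ ≤ κ * (1 / 2) ^ n :=
    fun n z hz => (hvn n).bdd z hz
  have hsumz : ∀ z ∈ strip (ρ₀ / 2), Summable (fun n => v n z) := fun z hz =>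
    Summable.of_norm_bounded hgeo (fun n => hbd n z hz)
  set U : ℂ → ℂ := fun z => U₀ z + ∑' n, v n z with hU
  have hsub : strip (ρ₀ / 2) ⊆ strip ρ₀ := strip_mono (by linarith)
  have hpart : ∀ (n : ℕ) (z : ℂ), Us n z = U₀ z + ∑ i ∈ Finset.range n, v i z := by
    intro n z
    induction n with
    | zero => simp [hUs0]
    | succ n ih =>
      rw [hUsS, Finset.sum_range_succ, ← add_assoc, ← ih]
  have hlim : ∀ z ∈ strip (ρ₀ / 2), Tendsto (fun n => Us n z) atTop (𝓝 (U z)) := by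
    intro z hz
    simp only [hpart]
    exact tendsto_const_nhds.add (hsumz z hz).hasSum.tendsto_sum_nat
  refine ⟨U, ?_, ?_, ?_, ?_⟩
  · apply (h0.diff.mono hsub).add
    exact Complex.differentiableOn_tsum_of_summable_norm hgeo (fun n => (hvn n).diff)
      (isOpen_strip _) hbd
  · intro z hz
    simp only [hU]
    rw [h0.per z (hsub hz)]
    congr 1
    apply tsum_congr
    intro n
    exact (hvn n).per z hz
  · intro z hz
    have h1 : Tendsto (fun n => err h (Us n) z) atTop (𝓝 (err h U z)) := by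
      unfold err
      exact (((hlim _ (add_real_mem_strip hz h)).sub (hlim _ (sub_real_mem_strip hz h))).div_const _).sub
        ((hlim _ (neg_mem_strip hz)).pow 2)
    have h2 : Tendsto (fun n => err h (Us n) z) atTop (𝓝 0) := by
      apply squeeze_zero_norm (a := fun n : ℕ => ε₀ * ((1 / 2 : ℝ) ^ n) ^ 20)
      · intro n
        apply (hInv n).err.bdd
        apply strip_mono _ hz
        have : 0 < ρ₀ / 2 * (1 / 2) ^ n := by positivity
        linarith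
      · have h3 : Tendsto (fun n : ℕ => (1 / 2 : ℝ) ^ n) atTop (𝓝 0) :=
          tendsto_pow_atTop_nhds_zero_of_lt_one (by norm_num) (by norm_num)
        have h4 := (h3.pow 20).const_mul ε₀
        simpa using h4
    exact tendsto_nhds_unique h1 h2
  · intro z hz
    simp only [hU, add_sub_cancel_left]
    have h1 := tsum_of_norm_bounded hgeo.hasSum (fun n => hbd n z hz)
    rw [hgeosum] at h1
    refine h1.trans ?_
    rw [hκ]
    linarith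

end Pool.Agent.Herman
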