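import Mathlib
import Pool.Agent.Herman.KAM

/-!
# The limit `h → 0`

Given a solution `U₀` of `U₀' (z) = U₀ (-z) ^ 2` on a strip, bounded and bounded away from zero,
the functional equation is solvable for all small `h` satisfying the Diophantine condition.
-/

set_option autoImplicit false

namespace Pool.Agent.Herman

open Set Filter Topology MeasureTheory
open scoped Real

/-- Symmetric difference quotient versus derivative. -/
lemma norm_symm_diff_le {ρ M δ b : ℝ} {f : ℂ → ℂ} (hf : PH ρ M f) (hδ : 0 < δ) (hb : 0 ≤ b)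
    {z : ℂ} (hz : z ∈ strip (ρ - δ - δ)) :
    ‖f (z + b) - f (z - b) - 2 * b * deriv f z‖ ≤ 2 * b ^ 2 * (M / δ / δ) := by
  have hz1 : z ∈ strip (ρ - δ) := strip_mono (by linarith) hz
  have hz2 : z ∈ strip ρ := strip_mono (by linarith) hz1
  have hd := hf.deriv hδ
  have key := Convex.norm_image_sub_le_of_norm_hasDerivWithin_le (𝕜 := ℝ) (s := Set.Icc (-b) b)
    (f := fun t : ℝ => f (z + t) - t * deriv f z) (f' := fun t : ℝ => deriv f (z + t) - deriv f z)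
    (C := M / δ / δ * b) (x := -b) (y := b)
    (by
      intro t _
      have h1 : HasDerivAt (fun w : ℂ => f (z + w)) (deriv f (z + t)) (t : ℂ) := by
        have := (hf.differentiableAt (add_real_mem_strip hz2 t)).hasDerivAt
        exact this.comp_const_add z (t : ℂ)
      have h2 := h1.comp_ofReal
      have h3 : HasDerivAt (fun t : ℝ => (t : ℂ) * deriv f z) (deriv f z) t := by
        have := (Complex.ofRealCLM.hasDerivAt (x := t)).mul_const (deriv f z)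
        simpa using this
      exact (h2.sub h3).hasDerivWithinAt)
    (by
      intro t ht
      have h1 := hd.norm_shift_sub_shift_le hδ hz t 0
      simp only [Complex.ofReal_zero, add_zero, sub_zero] at h1
      refine h1.trans ?_
      have : |t| ≤ b := abs_le.mpr ⟨ht.1, ht.2⟩
      have h0 : 0 ≤ M / δ / δ := by
        have hρ : 0 < ρ := by
          have : |z.im| < ρ - δ - δ := hz
          linarith [abs_nonneg z.im]
        have := hf.nonneg hρ
        positivity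
      gcongr)
    (convex_Icc _ _) ⟨le_rfl, by linarith⟩ ⟨by linarith, le_rfl⟩
  have e : f (z + b) - b * deriv f z - (f (z + ((-b : ℝ) : ℂ)) - ((-b : ℝ) : ℂ) * deriv f z) =
      f (z + b) - f (z - b) - 2 * b * deriv f z := by
    rw [show z + ((-b : ℝ) : ℂ) = z - b by push_cast; ring]
    push_cast
    ring
  rw [e] at key
  refine key.trans (le_of_eq ?_)
  rw [Real.norm_eq_abs, sub_neg_eq_add, abs_of_nonneg (by linarith)]
  ring

/-- A solution of the unperturbed equation `U' (z) = U (-z) ^ 2`. -/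
structure Unpert (ρ m M : ℝ) (U : ℂ → ℂ) : Prop where
  diff : DifferentiableOn ℂ U (strip ρ)
  per : ∀ z ∈ strip ρ, U (z + 1) = U z
  low : ∀ z ∈ strip ρ, m ≤ ‖U z‖
  up : ∀ z ∈ strip ρ, ‖U z‖ ≤ M
  ode : ∀ z ∈ strip ρ, deriv U z = U (-z) ^ 2

namespace Unpert

variable {ρ m M : ℝ} {U : ℂ → ℂ}

lemma ph (hU : Unpert ρ m M U) : PH ρ M U := ⟨hU.diff, hU.per, hU.up⟩

lemma hasDerivAt (hU : Unpert ρ m M U) {z : ℂ} (hz : z ∈ strip ρ) :
    HasDerivAt U (U (-z) ^ 2) z := by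
  rw [← hU.ode z hz]
  exact (hU.ph.differentiableAt hz).hasDerivAt

lemma hasDerivAt_neg (hU : Unpert ρ m M U) {z : ℂ} (hz : z ∈ strip ρ) :
    HasDerivAt (fun w => U (-w)) (-(U z ^ 2)) z := by
  have h1 := hU.hasDerivAt (neg_mem_strip hz)
  rw [neg_neg] at h1
  have := h1.comp z (_root_.hasDerivAt_neg z)
  simpa [Function.comp_def] using this

lemma ne_zero (hU : Unpert ρ m M U) (hm : 0 < m) {z : ℂ} (hz : z ∈ strip ρ) : U z ≠ 0 :=
  norm_pos_iff.mp (lt_of_lt_of_le hm (hU.low z hz))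

lemma conserved (hU : Unpert ρ m M U) {z : ℂ} (hz : z ∈ strip ρ) :
    U z ^ 3 + U (-z) ^ 3 = 2 * U 0 ^ 3 := by
  have hρ : 0 < ρ := lt_of_le_of_lt (abs_nonneg _) hz
  have h0 : (0 : ℂ) ∈ strip ρ := by simpa [strip] using hρ
  have hd : ∀ w ∈ strip ρ, HasDerivAt (fun w => U w ^ 3 + U (-w) ^ 3) 0 w := by
    intro w hw
    have h1 := (hU.hasDerivAt hw).pow 3
    have h2 := (hU.hasDerivAt_neg hw).pow 3
    refine (h1.add h2).congr_deriv ?_
    push_cast
    ring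
  have h1 : (fun w => U w ^ 3 + U (-w) ^ 3) z = (fun w => U w ^ 3 + U (-w) ^ 3) 0 := by
    apply (isOpen_strip ρ).is_const_of_deriv_eq_zero (convex_strip ρ).isPreconnected
      (fun w hw => (hd w hw).differentiableAt.differentiableWithinAt)
      (fun w hw => (hd w hw).deriv) hz h0
  simp only [neg_zero] at h1
  rw [h1]
  ring

/-- The mean of `U ^ (-3)`, symmetrised. -/
lemma mean_inv_cube (hU : Unpert ρ m M U) (hρ : 0 < ρ) (hm : 0 < m) :
    mean (fun z => (U z ^ 3)⁻¹ + (U (-z) ^ 3)⁻¹) = (2 * U 0 ^ 3)⁻¹ := by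
  have h0 : (0 : ℂ) ∈ strip ρ := by simpa [strip] using hρ
  have hc : (2 * U 0 ^ 3) ≠ 0 := mul_ne_zero two_ne_zero (pow_ne_zero _ (hU.ne_zero hm h0))
  set c : ℂ := 2 * U 0 ^ 3 with hcdef
  -- a primitive
  set J : ℂ → ℂ := fun z => U (-z) / U z ^ 2 - U z / U (-z) ^ 2 with hJ
  have hJd : ∀ z ∈ strip ρ, HasDerivAt J
      (2 - 2 * c * ((U z ^ 3)⁻¹ + (U (-z) ^ 3)⁻¹)) z := by
    intro z hz
    have a1 := hU.hasDerivAt hz
    have a2 := hU.hasDerivAt_neg hz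
    have n1 := hU.ne_zero hm hz
    have n2 := hU.ne_zero hm (neg_mem_strip hz)
    have h1 := (a2.div (a1.pow 2) (pow_ne_zero 2 n1)).sub (a1.div (a2.pow 2) (pow_ne_zero 2 n2))
    refine h1.congr_deriv ?_
    have hcons := hU.conserved hz
    rw [← hcdef] at hcons
    rw [← hcons]
    simp only [Pi.pow_apply]
    field_simp
    ring
  have hint : ∫ x in (0 : ℝ)..1, (2 - 2 * c * ((U x ^ 3)⁻¹ + (U (-x) ^ 3)⁻¹)) =
      J ((1 : ℝ) : ℂ) - J ((0 : ℝ) : ℂ) := by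
    apply intervalIntegral.integral_eq_sub_of_hasDerivAt (f := fun x : ℝ => J x)
    · intro x _
      exact (hJd x (real_mem_strip hρ x)).comp_ofReal
    · apply Continuous.intervalIntegrable
      have c1 : Continuous (fun x : ℝ => U x) := hU.ph.continuous_real hρ
      have c2 : Continuous (fun x : ℝ => U (-x)) := hU.ph.refl.continuous_real hρ
      have n1 : ∀ x : ℝ, U x ^ 3 ≠ 0 := fun x =>
        pow_ne_zero _ (hU.ne_zero hm (real_mem_strip hρ x))
      have n2 : ∀ x : ℝ, U (-x) ^ 3 ≠ 0 := fun x =>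
        pow_ne_zero _ (hU.ne_zero hm (neg_mem_strip (real_mem_strip hρ x)))
      exact continuous_const.sub (continuous_const.mul
        (((c1.pow 3).inv₀ n1).add ((c2.pow 3).inv₀ n2)))
  have hJ1 : J ((1 : ℝ) : ℂ) - J ((0 : ℝ) : ℂ) = 0 := by
    have e1 : U 1 = U 0 := by
      have := hU.per 0 h0
      rwa [zero_add] at this
    have e2 : U (-1) = U 0 := by
      have := hU.per (-1) (by simpa [strip] using hρ)
      rw [neg_add_cancel] at this
      exact this.symm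
    simp only [hJ, Complex.ofReal_one, Complex.ofReal_zero, neg_zero, e1, e2, sub_self]
  rw [hJ1] at hint
  have hci : Continuous (fun x : ℝ => (U x ^ 3)⁻¹ + (U (-x) ^ 3)⁻¹) := by
    have c1 : Continuous (fun x : ℝ => U x) := hU.ph.continuous_real hρ
    have c2 : Continuous (fun x : ℝ => U (-x)) := hU.ph.refl.continuous_real hρ
    have n1 : ∀ x : ℝ, U x ^ 3 ≠ 0 := fun x =>
      pow_ne_zero _ (hU.ne_zero hm (real_mem_strip hρ x))
    have n2 : ∀ x : ℝ, U (-x) ^ 3 ≠ 0 := fun x =>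
      pow_ne_zero _ (hU.ne_zero hm (neg_mem_strip (real_mem_strip hρ x)))
    exact ((c1.pow 3).inv₀ n1).add ((c2.pow 3).inv₀ n2)
  have hsplit : ∫ x in (0 : ℝ)..1, (2 - 2 * c * ((U x ^ 3)⁻¹ + (U (-x) ^ 3)⁻¹)) =
      2 - 2 * c * ∫ x in (0 : ℝ)..1, ((U x ^ 3)⁻¹ + (U (-x) ^ 3)⁻¹) := by
    have h1 := intervalIntegral.integral_sub (μ := volume) (a := (0 : ℝ)) (b := 1)
      (f := fun _ : ℝ => (2 : ℂ)) (g := fun x : ℝ => 2 * c * ((U x ^ 3)⁻¹ + (U (-x) ^ 3)⁻¹))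
      (by simp) ((continuous_const.mul hci).intervalIntegrable _ _)
    rw [h1, intervalIntegral.integral_const_mul]
    simp
  rw [hsplit] at hint
  unfold mean
  have h2 : c * ∫ x in (0 : ℝ)..1, ((U x ^ 3)⁻¹ + (U (-x) ^ 3)⁻¹) = 1 := by
    linear_combination (-1 / 2 : ℂ) * hint
  exact eq_inv_of_mul_eq_one_right h2

/-- The inverse of the derivative. -/
lemma inv_deriv_eq (hU : Unpert ρ m M U) {z : ℂ} (hz : z ∈ strip ρ) :
    (deriv U z)⁻¹ = (U (-z) ^ 2)⁻¹ := by rw [hU.ode z hz]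

lemma hasDerivAt_inv_deriv (hU : Unpert ρ m M U) (hm : 0 < m) {z : ℂ} (hz : z ∈ strip ρ) :
    HasDerivAt (fun w => (deriv U w)⁻¹) (2 * U z ^ 2 / U (-z) ^ 3) z := by
  have n2 := hU.ne_zero hm (neg_mem_strip hz)
  have h1 := ((hU.hasDerivAt_neg hz).pow 2).inv (pow_ne_zero 2 n2)
  have h2 : (fun w => (deriv U w)⁻¹) =ᶠ[𝓝 z] ((fun w => U (-w)) ^ 2)⁻¹ := by
    filter_upwards [(isOpen_strip ρ).mem_nhds hz] with w hw using hU.inv_deriv_eq hw
  refine (h1.congr_of_eventuallyEq h2).congr_deriv ?_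
  simp only [Pi.pow_apply]
  field_simp
  push_cast
  ring

lemma ph_deriv (hU : Unpert ρ m M U) : PH ρ (M ^ 2) (deriv U) := by
  have h1 : PH ρ (M * M) (fun z => U (-z) * U (-z)) := hU.ph.refl.mul hU.ph.refl
  refine (h1.congr (g := deriv U) fun z hz => ?_).mono le_rfl (le_of_eq (by ring))
  rw [hU.ode z hz]; ring

lemma low_deriv (hU : Unpert ρ m M U) (hm : 0 < m) {z : ℂ} (hz : z ∈ strip ρ) :
    m ^ 2 ≤ ‖deriv U z‖ := by
  rw [hU.ode z hz, norm_pow]
  have := hU.low _ (neg_mem_strip hz)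
  gcongr

lemma ph_inv_deriv (hU : Unpert ρ m M U) (hm : 0 < m) :
    PH ρ (m ^ 2)⁻¹ (fun z => (deriv U z)⁻¹) :=
  hU.ph_deriv.inv (by positivity) (fun _ hz => hU.low_deriv hm hz)

/-- The twist converges to `1 / c`. -/
lemma norm_mean_twd_sub (hU : Unpert ρ m M U) (hρ : 0 < ρ) (hm : 0 < m) {h : ℝ} (hh : 0 < h) :
    ‖mean (twd h (fun z => (deriv U z)⁻¹)) - (2 * U 0 ^ 3)⁻¹‖ ≤
      h * ((m ^ 2)⁻¹ * (m ^ 2)⁻¹ / (ρ / 4) / (ρ / 4)) := by
  set Q : ℂ → ℂ := fun z => (deriv U z)⁻¹ with hQ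
  have hQph : PH ρ (m ^ 2)⁻¹ Q := hU.ph_inv_deriv hm
  rw [← hU.mean_inv_cube hρ hm]
  have hρ4 : 0 < ρ / 4 := by positivity
  apply norm_mean_sub_le
  · exact (ph_twd hh hQph hρ4).continuous_real (by linarith)
  · have c1 : Continuous (fun x : ℝ => U x) := hU.ph.continuous_real hρ
    have c2 : Continuous (fun x : ℝ => U (-x)) := hU.ph.refl.continuous_real hρ
    have n1 : ∀ x : ℝ, U x ^ 3 ≠ 0 := fun x =>
      pow_ne_zero _ (hU.ne_zero hm (real_mem_strip hρ x))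
    have n2 : ∀ x : ℝ, U (-x) ^ 3 ≠ 0 := fun x =>
      pow_ne_zero _ (hU.ne_zero hm (neg_mem_strip (real_mem_strip hρ x)))
    exact ((c1.pow 3).inv₀ n1).add ((c2.pow 3).inv₀ n2)
  · intro x
    have hx : (x : ℂ) ∈ strip ρ := real_mem_strip hρ x
    -- the product function
    have hφ : PH ρ ((m ^ 2)⁻¹ * (m ^ 2)⁻¹) (fun s => Q (s + x) * Q (s + (-x : ℝ))) :=
      (hQph.shift x).mul (hQph.shift (-x))
    have h0 : (0 : ℂ) ∈ strip (ρ - ρ / 4 - ρ / 4) := by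
      have : 0 < ρ - ρ / 4 - ρ / 4 := by linarith
      simpa [strip] using this
    have key := norm_symm_diff_le hφ hρ4 (b := h / 2) (by positivity) h0
    have hd : deriv (fun s => Q (s + x) * Q (s + (-x : ℝ))) 0 =
        2 * ((U x ^ 3)⁻¹ + (U (-x) ^ 3)⁻¹) := by
      have a1 : HasDerivAt (fun s : ℂ => Q (s + x)) (2 * U x ^ 2 / U (-x) ^ 3) 0 := by
        have := hU.hasDerivAt_inv_deriv hm hx
        have h2 : HasDerivAt Q (2 * U x ^ 2 / U (-x) ^ 3) (0 + (x : ℂ)) := by rwa [zero_add]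
        exact h2.comp_add_const 0 (x : ℂ)
      have a2 : HasDerivAt (fun s : ℂ => Q (s + (-x : ℝ))) (2 * U (-x) ^ 2 / U x ^ 3) 0 := by
        have := hU.hasDerivAt_inv_deriv hm (neg_mem_strip hx)
        rw [neg_neg] at this
        have h2 : HasDerivAt Q (2 * U (-x) ^ 2 / U x ^ 3) (0 + ((-x : ℝ) : ℂ)) := by
          rw [zero_add]; push_cast; exact this
        exact h2.comp_add_const 0 ((-x : ℝ) : ℂ)
      have a3 : deriv (fun s => Q (s + x) * Q (s + (-x : ℝ))) 0 = _ := (a1.mul a2).deriv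
      rw [a3]
      have e1 : Q (0 + x) = (U (-x) ^ 2)⁻¹ := by
        rw [zero_add]; exact hU.inv_deriv_eq hx
      have e2 : Q (0 + ((-x : ℝ) : ℂ)) = (U x ^ 2)⁻¹ := by
        rw [zero_add]; push_cast
        have := hU.inv_deriv_eq (neg_mem_strip hx)
        rwa [neg_neg] at this
      rw [e1, e2]
      have n1 := hU.ne_zero hm hx
      have n2 := hU.ne_zero hm (neg_mem_strip hx)
      field_simp
      ring
    rw [hd] at key
    have hhC : (h : ℂ) ≠ 0 := Complex.ofReal_ne_zero.mpr hh.ne'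
    have e : twd h Q x - ((U x ^ 3)⁻¹ + (U (-x) ^ 3)⁻¹) =
        (2 * h : ℂ)⁻¹ * (Q (0 + ((h / 2 : ℝ) : ℂ) + x) * Q (0 + ((h / 2 : ℝ) : ℂ) + (-x : ℝ)) -
          Q (0 - ((h / 2 : ℝ) : ℂ) + x) * Q (0 - ((h / 2 : ℝ) : ℂ) + (-x : ℝ)) -
          2 * ((h / 2 : ℝ) : ℂ) * (2 * ((U x ^ 3)⁻¹ + (U (-x) ^ 3)⁻¹))) := by
      rw [twd_eq]
      have f1 : (0 + ((h / 2 : ℝ) : ℂ) + x) = (x : ℂ) + ((h / 2 : ℝ) : ℂ) := by ring
      have f2 : (0 + ((h / 2 : ℝ) : ℂ) + ((-x : ℝ) : ℂ)) = -((x : ℂ) - ((h / 2 : ℝ) : ℂ)) := by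
        push_cast; ring
      have f3 : (0 - ((h / 2 : ℝ) : ℂ) + x) = (x : ℂ) - ((h / 2 : ℝ) : ℂ) := by ring
      have f4 : (0 - ((h / 2 : ℝ) : ℂ) + ((-x : ℝ) : ℂ)) = -((x : ℂ) + ((h / 2 : ℝ) : ℂ)) := by
        push_cast; ring
      rw [f1, f2, f3, f4]
      have f5 : 2 * ((h / 2 : ℝ) : ℂ) = h := by push_cast; ring
      rw [f5]
      field_simp
    rw [e, norm_mul, norm_inv]
    have e5 : ‖(2 * h : ℂ)‖ = 2 * h := by
      rw [norm_mul, Complex.norm_real, Real.norm_eq_abs, abs_of_pos hh]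
      norm_num
    rw [e5]
    calc (2 * h)⁻¹ * _ ≤ (2 * h)⁻¹ * (2 * (h / 2) ^ 2 *
          ((m ^ 2)⁻¹ * (m ^ 2)⁻¹ / (ρ / 4) / (ρ / 4))) := by
          apply mul_le_mul_of_nonneg_left key (by positivity)
      _ = (h / 4) * ((m ^ 2)⁻¹ * (m ^ 2)⁻¹ / (ρ / 4) / (ρ / 4)) := by
          field_simp
          ring
      _ ≤ _ := by
          apply mul_le_mul_of_nonneg_right _ (by positivity)
          linarith

/-- The initial error tends to zero. -/
lemma ph_err (hU : Unpert ρ m M U) (hρ : 0 < ρ) {h : ℝ} (hh : 0 < h) :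
    PH (ρ / 2) (h * (M / (ρ / 4) / (ρ / 4))) (err h U) := by
  have hsub : strip (ρ / 2) ⊆ strip ρ := strip_mono (by linarith)
  have h1 : PH ρ ((M + M) * ‖(2 * h : ℂ)⁻¹‖ + M * M)
      (fun z => (U (z + h) - U (z - h)) * (2 * h : ℂ)⁻¹ - U (-z) * U (-z)) :=
    (((hU.ph.shift h).sub (hU.ph.shift_sub h)).mul (PH.const ρ _)).sub (hU.ph.refl.mul hU.ph.refl)
  have e0 : ∀ z, err h U z = (U (z + h) - U (z - h)) * (2 * h : ℂ)⁻¹ - U (-z) * U (-z) := by
    intro z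
    unfold err
    rw [div_eq_mul_inv]
    ring
  have hM : 0 ≤ M := hU.ph.nonneg hρ
  refine ⟨(h1.diff.mono hsub).congr fun z _ => e0 z, fun z hz => ?_, fun z hz => ?_⟩
  · rw [e0, e0]
    exact h1.per z (hsub hz)
  · have hz' : z ∈ strip (ρ - ρ / 4 - ρ / 4) := strip_mono (by linarith) hz
    have key := norm_symm_diff_le hU.ph (by positivity : 0 < ρ / 4) hh.le hz'
    rw [hU.ode z (hsub hz)] at key
    have hhC : (h : ℂ) ≠ 0 := Complex.ofReal_ne_zero.mpr hh.ne'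
    have e : err h U z = (2 * h : ℂ)⁻¹ * (U (z + h) - U (z - h) - 2 * h * U (-z) ^ 2) := by
      unfold err
      field_simp
    rw [e, norm_mul, norm_inv]
    have e5 : ‖(2 * h : ℂ)‖ = 2 * h := by
      rw [norm_mul, Complex.norm_real, Real.norm_eq_abs, abs_of_pos hh]
      norm_num
    rw [e5]
    calc (2 * h)⁻¹ * _ ≤ (2 * h)⁻¹ * (2 * h ^ 2 * (M / (ρ / 4) / (ρ / 4))) := by
          apply mul_le_mul_of_nonneg_left key (by positivity)
      _ = _ := by field_simp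

/-- For all small Diophantine `h` the functional equation has a solution near `U`. -/
theorem exists_solution (hU : Unpert ρ m M U) (hρ : 0 < ρ) (hρ1 : ρ ≤ 1) (hm : 0 < m) {γ : ℝ}
    (hγ : 0 < γ) (hγ1 : γ ≤ 1) :
    ∃ h₀ : ℝ, 0 < h₀ ∧ ∀ h : ℝ, 0 < h → h < h₀ → DCs γ (2 * h) →
      ∃ V : ℂ → ℂ, DifferentiableOn ℂ V (strip (ρ / 4)) ∧
        (∀ z ∈ strip (ρ / 4), V (z + 1) = V z) ∧
        (∀ z ∈ strip (ρ / 4), err h V z = 0) ∧
        (∀ z ∈ strip (ρ / 4), m / 2 ≤ ‖V z‖) := by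
  have h0 : (0 : ℂ) ∈ strip ρ := by simpa [strip] using hρ
  have hM : 0 ≤ M := hU.ph.nonneg hρ
  set c : ℂ := (2 * U 0 ^ 3)⁻¹ with hc
  have hc0 : 0 < ‖c‖ := by
    rw [norm_pos_iff, hc]
    exact inv_ne_zero (mul_ne_zero two_ne_zero (pow_ne_zero _ (hU.ne_zero hm h0)))
  obtain ⟨ε₀, hε₀, hkam⟩ := kam (γ := γ) (ρ₀ := ρ / 2) (M := M ^ 2) (m := m ^ 2) (τ := ‖c‖ / 2)
    (ζ := m / 2) hγ hγ1 (by positivity) (by linarith) (by positivity) (by positivity)
    (by positivity) (by positivity)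
  set C1 : ℝ := (m ^ 2)⁻¹ * (m ^ 2)⁻¹ / (ρ / 4) / (ρ / 4) with hC1
  set C2 : ℝ := M / (ρ / 4) / (ρ / 4) with hC2
  have hC1' : 0 < C1 := by positivity
  have hC2' : 0 ≤ C2 := by positivity
  refine ⟨min 1 (min (‖c‖ / 2 / C1) (ε₀ / (C2 + 1))), by positivity, ?_⟩
  intro h hh hlt hDC
  have l1 : h < 1 := lt_of_lt_of_le hlt (min_le_left _ _)
  have l2 : h < ‖c‖ / 2 / C1 := lt_of_lt_of_le hlt ((min_le_right _ _).trans (min_le_left _ _))
  have l3 : h < ε₀ / (C2 + 1) := lt_of_lt_of_le hlt ((min_le_right _ _).trans (min_le_right _ _))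
  have hsub : strip (ρ / 2) ⊆ strip ρ := strip_mono (by linarith)
  have hbase : Base h (ρ / 2) (M ^ 2) (m ^ 2) (‖c‖ / 2) U := by
    refine ⟨hU.diff.mono hsub, fun z hz => hU.per z (hsub hz), hU.ph_deriv.mono (by linarith) le_rfl,
      fun z hz => hU.low_deriv hm (hsub hz), ?_⟩
    have h1 := hU.norm_mean_twd_sub hρ hm hh
    rw [← hc, ← hC1] at h1
    rw [lt_div_iff₀ hC1'] at l2
    have h2 : ‖c‖ ≤ ‖mean (twd h (fun z => (deriv U z)⁻¹))‖ +
        ‖mean (twd h (fun z => (deriv U z)⁻¹)) - c‖ := by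
      have := norm_sub_le (mean (twd h (fun z => (deriv U z)⁻¹)))
        (mean (twd h (fun z => (deriv U z)⁻¹)) - c)
      rwa [sub_sub_cancel] at this
    linarith
  have herr : PH (ρ / 2) ε₀ (err h U) := by
    refine (hU.ph_err hρ hh).mono le_rfl ?_
    rw [← hC2]
    rw [lt_div_iff₀ (by positivity)] at l3
    nlinarith
  obtain ⟨V, hV1, hV2, hV3, hV4⟩ := hkam h U hh l1.le hDC hbase herr
  have e4 : ρ / 2 / 2 = ρ / 4 := by ring
  rw [e4] at hV1 hV2 hV3 hV4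
  refine ⟨V, hV1, hV2, hV3, fun z hz => ?_⟩
  have h1 := hU.low z (strip_mono (by linarith) hz)
  have h2 := hV4 z hz
  have h3 : ‖U z‖ ≤ ‖V z‖ + ‖V z - U z‖ := by
    have := norm_sub_le (V z) (V z - U z)
    rwa [sub_sub_cancel] at this
  linarith

end Unpert

end Pool.Agent.Herman
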