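import Mathlib
import Pool.Agent.Herman.Cross
import Pool.Agent.Herman.Pert

/-!
# The global unperturbed solution

The power series solution is continued to a strip with the help of the symmetry
`(u, v) (z + 2 t₀) = (β² / v*(z), β u*(z) / v*(z))`.
-/

set_option autoImplicit false

namespace Pool.Agent.Herman

open Set Filter Topology MeasureTheory
open scoped Real NNReal ComplexConjugate

/-- Pairs of functions. -/
abbrev Pair := (ℂ → ℂ) × (ℂ → ℂ)

/-- The disc of radius `1 / 2`. -/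
def bB : Set ℂ := Metric.ball 0 (1 / 2)

lemma mem_bB {z : ℂ} : z ∈ bB ↔ ‖z‖ < 1 / 2 := by
  rw [bB, Metric.mem_ball, dist_zero_right]

lemma conj_mem_bB {z : ℂ} (hz : z ∈ bB) : conj z ∈ bB := by
  rw [mem_bB] at *
  rwa [Complex.norm_conj]

/-- Nonvanishing solutions of the system on the disc. -/
structure Sol (s : Pair) : Prop where
  d1 : ∀ z ∈ bB, HasDerivAt s.1 (s.2 z ^ 2) z
  d2 : ∀ z ∈ bB, HasDerivAt s.2 (-(s.1 z ^ 2)) z
  n1 : ∀ z ∈ bB, s.1 z ≠ 0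
  n2 : ∀ z ∈ bB, s.2 z ≠ 0
  cons : ∀ z ∈ bB, s.1 z ^ 3 + s.2 z ^ 3 = -2

/-- The antiholomorphic symmetry. -/
noncomputable def gg (s : Pair) : Pair :=
  (fun z => (bet : ℂ) ^ 2 / conj (s.2 (conj z)), fun z => bet * conj (s.1 (conj z)) / conj (s.2 (conj z)))

lemma betC_cube : ((bet : ℂ)) ^ 3 = 2 := by exact_mod_cast congrArg (fun x : ℝ => (x : ℂ)) bet_cube

lemma betC_ne : (bet : ℂ) ≠ 0 := Complex.ofReal_ne_zero.mpr bet_pos.ne'

lemma Sol.gg {s : Pair} (hs : Sol s) : Sol (gg s) := by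
  have e1 : ∀ z ∈ bB, HasDerivAt (fun w => conj (s.1 (conj w))) (conj (s.2 (conj z)) ^ 2) z := by
    intro z hz
    have h := (hs.d1 _ (conj_mem_bB hz)).conj_conj
    rw [Complex.conj_conj, map_pow] at h
    exact h
  have e2 : ∀ z ∈ bB, HasDerivAt (fun w => conj (s.2 (conj w))) (-(conj (s.1 (conj z)) ^ 2)) z := by
    intro z hz
    have h := (hs.d2 _ (conj_mem_bB hz)).conj_conj
    rw [Complex.conj_conj, map_neg, map_pow] at h
    exact h
  have n1 : ∀ z ∈ bB, conj (s.1 (conj z)) ≠ 0 := fun z hz =>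
    (map_ne_zero _).mpr (hs.n1 _ (conj_mem_bB hz))
  have n2 : ∀ z ∈ bB, conj (s.2 (conj z)) ≠ 0 := fun z hz =>
    (map_ne_zero _).mpr (hs.n2 _ (conj_mem_bB hz))
  have hc : ∀ z ∈ bB, conj (s.1 (conj z)) ^ 3 + conj (s.2 (conj z)) ^ 3 = -2 := by
    intro z hz
    have := congrArg conj (hs.cons _ (conj_mem_bB hz))
    rw [map_add, map_pow, map_pow, map_neg] at this
    rw [this]
    congr 1
    exact Complex.conj_ofNat 2
  refine ⟨?_, ?_, ?_, ?_, ?_⟩
  · intro z hz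
    have h := (hasDerivAt_const z ((bet : ℂ) ^ 2)).div (e2 z hz) (n2 z hz)
    refine h.congr_deriv ?_
    show _ = (bet * conj (s.1 (conj z)) / conj (s.2 (conj z))) ^ 2
    have := n2 z hz
    field_simp
    ring
  · intro z hz
    have h := ((e1 z hz).const_mul (bet : ℂ)).div (e2 z hz) (n2 z hz)
    refine h.congr_deriv ?_
    show _ = -(((bet : ℂ) ^ 2 / conj (s.2 (conj z))) ^ 2)
    have h2 := n2 z hz
    have h3 := hc z hz
    have h4 := betC_cube
    field_simp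
    linear_combination (bet : ℂ) * h3 + (bet : ℂ) * h4
  · intro z hz
    exact div_ne_zero (pow_ne_zero 2 betC_ne) (n2 z hz)
  · intro z hz
    exact div_ne_zero (mul_ne_zero betC_ne (n1 z hz)) (n2 z hz)
  · intro z hz
    show ((bet : ℂ) ^ 2 / conj (s.2 (conj z))) ^ 3 +
      (bet * conj (s.1 (conj z)) / conj (s.2 (conj z))) ^ 3 = -2
    have h2 := n2 z hz
    have h3 := hc z hz
    have h4 := betC_cube
    field_simp
    linear_combination (2 : ℂ) * h3 +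
      ((bet : ℂ) ^ 3 + 2 + conj (s.1 (conj z)) ^ 3) * h4

lemma gg3 {s : Pair} (hs : Sol s) {z : ℂ} (hz : z ∈ bB) :
    (gg (gg (gg s))).1 z = conj (s.1 (conj z)) ∧ (gg (gg (gg s))).2 z = conj (s.2 (conj z)) := by
  have h1 := (map_ne_zero (starRingEnd ℂ)).mpr (hs.n1 _ (conj_mem_bB hz))
  have h2 := (map_ne_zero (starRingEnd ℂ)).mpr (hs.n2 _ (conj_mem_bB hz))
  have hb := betC_ne
  unfold gg
  simp only [map_div₀, map_mul, map_pow, Complex.conj_ofReal, Complex.conj_conj]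
  constructor
  · field_simp
  · field_simp

lemma gg6 {s : Pair} (hs : Sol s) {z : ℂ} (hz : z ∈ bB) :
    (gg (gg (gg (gg (gg (gg s)))))).1 z = s.1 z ∧ (gg (gg (gg (gg (gg (gg s)))))).2 z = s.2 z := by
  have h1 := gg3 hs.gg.gg.gg hz
  have h2 := gg3 hs (conj_mem_bB hz)
  rw [h1.1, h1.2, h2.1, h2.2, Complex.conj_conj, Complex.conj_conj, Complex.conj_conj]
  exact ⟨rfl, rfl⟩

/-- The pieces. -/
noncomputable def pc : ℕ → Pair
  | 0 => (uu, fun z => uu (-z))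
  | n + 1 => gg (pc n)

lemma sol_pc (n : ℕ) : Sol (pc n) := by
  induction n with
  | zero =>
    refine ⟨?_, ?_, ?_, ?_, ?_⟩
    · intro z hz
      rw [mem_bB] at hz
      exact hasDerivAt_uu (by linarith)
    · intro z hz
      rw [mem_bB] at hz
      exact hasDerivAt_uu_neg (by linarith)
    · intro z hz
      rw [mem_bB] at hz
      exact uu_ne_zero hz
    · intro z hz
      rw [mem_bB] at hz
      exact uu_ne_zero (by rwa [norm_neg])
    · intro z hz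
      rw [mem_bB] at hz
      exact uu_conserved (by linarith)
  | succ n ih => exact ih.gg

lemma pc_six (n : ℕ) {z : ℂ} (hz : z ∈ bB) : (pc (n + 6)).1 z = (pc n).1 z ∧
    (pc (n + 6)).2 z = (pc n).2 z := gg6 (sol_pc n) hz

/-- Two pieces match after a shift by `2 t₀`. -/
def Mt (t₀ : ℝ) (s s' : Pair) : Prop :=
  ∀ z ∈ bB, z - 2 * t₀ ∈ bB → s.1 z = s'.1 (z - 2 * t₀) ∧ s.2 z = s'.2 (z - 2 * t₀)

lemma Mt.gg {t₀ : ℝ} {s s' : Pair} (h : Mt t₀ s s') : Mt t₀ (gg s) (gg s') := by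
  intro z hz hz'
  have e : conj (z - 2 * (t₀ : ℂ)) = conj z - 2 * t₀ := by
    rw [map_sub, map_mul, Complex.conj_ofReal]
    congr 2
    exact Complex.conj_ofNat 2
  have h1 := h (conj z) (conj_mem_bB hz) (by rw [← e]; exact conj_mem_bB hz')
  unfold Herman.gg
  simp only [e, h1.1, h1.2]
  exact ⟨trivial, trivial⟩

lemma mt_zero {t₀ : ℝ} (h0 : 0 < t₀) (h1 : t₀ < 9 / 20) (h2 : ‖uu t₀‖ = bet)
    (h3 : 0 ≤ (conj (uu t₀) * uu (-t₀) ^ 2).re) : Mt t₀ (pc 0) (pc 1) := by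
  set O : Set ℂ := bB ∩ {z | z - 2 * t₀ ∈ bB} with hO
  have hOe : {z : ℂ | z - 2 * t₀ ∈ bB} = Metric.ball (2 * t₀ : ℂ) (1 / 2) := by
    ext z
    rw [Set.mem_ofPred_eq, mem_bB, Metric.mem_ball, dist_eq_norm]
  have hOo : IsOpen O := by
    rw [hO, hOe, bB]
    exact Metric.isOpen_ball.inter Metric.isOpen_ball
  have hOc : IsPreconnected O := by
    rw [hO, hOe, bB]
    exact ((convex_ball _ _).inter (convex_ball _ _)).isPreconnected
  have hnt : ‖(t₀ : ℂ)‖ = t₀ := by rw [Complex.norm_real, Real.norm_eq_abs, abs_of_pos h0]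
  have ht : (t₀ : ℂ) ∈ bB := by rw [mem_bB, hnt]; linarith
  have ht' : (t₀ : ℂ) - 2 * t₀ = -t₀ := by ring
  have ht'' : -(t₀ : ℂ) ∈ bB := by rw [mem_bB, norm_neg, hnt]; linarith
  have htO : (t₀ : ℂ) ∈ O := by
    refine ⟨ht, ?_⟩
    rw [Set.mem_ofPred_eq, ht']
    exact ht''
  have hbr := branch (A := uu t₀) (C := uu (-t₀)) (uu_conserved (by rw [hnt]; linarith)) h2
    (uu_ne_zero (by rw [norm_neg, hnt]; linarith)) h3
  have hA0 : conj (uu t₀) ≠ 0 :=
    (map_ne_zero (starRingEnd ℂ)).mpr (uu_ne_zero (by rw [hnt]; linarith))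
  have hAA : uu t₀ * conj (uu t₀) = (bet : ℂ) ^ 2 := by
    rw [Complex.mul_conj, Complex.normSq_eq_norm_sq, h2]
    push_cast
    ring
  have e1 : uu t₀ = (bet : ℂ) ^ 2 / conj (uu t₀) := by
    rw [eq_div_iff hA0, hAA]
  have e2 : uu (-t₀) = bet * conj (uu (-t₀)) / conj (uu t₀) := by
    rw [eq_div_iff hA0, hbr]
  have hs0 := sol_pc 0
  have hs1 := sol_pc 1
  have key := pair_unique hOo hOc (u := (pc 0).1) (v := (pc 0).2)
    (u₁ := fun z => (pc 1).1 (z - 2 * t₀)) (v₁ := fun z => (pc 1).2 (z - 2 * t₀))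
    (fun z hz => hs0.d1 z hz.1) (fun z hz => hs0.d2 z hz.1)
    (fun z hz => (hs1.d1 _ hz.2).comp_sub_const z (2 * t₀ : ℂ))
    (fun z hz => (hs1.d2 _ hz.2).comp_sub_const z (2 * t₀ : ℂ)) htO (by
      show uu t₀ = (bet : ℂ) ^ 2 / conj (uu (-(conj ((t₀ : ℂ) - 2 * t₀))))
      rw [ht', map_neg, Complex.conj_ofReal, neg_neg]
      exact e1) (by
      show uu (-t₀) = bet * conj (uu (conj ((t₀ : ℂ) - 2 * t₀))) /
        conj (uu (-(conj ((t₀ : ℂ) - 2 * t₀))))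
      rw [ht', map_neg, Complex.conj_ofReal, neg_neg]
      exact e2)
  intro z hz hz'
  exact key z ⟨hz, hz'⟩

lemma mt_pc {t₀ : ℝ} (h : Mt t₀ (pc 0) (pc 1)) (n : ℕ) : Mt t₀ (pc n) (pc (n + 1)) := by
  induction n with
  | zero => exact h
  | succ n ih => exact ih.gg

/-- The pieces, indexed by the integers. -/
noncomputable def pz (m : ℤ) : Pair := pc (m % 6).toNat

lemma sol_pz (m : ℤ) : Sol (pz m) := sol_pc _

lemma mt_pz {t₀ : ℝ} (h : Mt t₀ (pc 0) (pc 1)) (m : ℤ) : Mt t₀ (pz m) (pz (m + 1)) := by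
  rcases eq_or_ne (m % 6) 5 with h5 | h5
  · have e1 : (m % 6).toNat = 5 := by omega
    have e2 : ((m + 1) % 6).toNat = 0 := by omega
    unfold pz
    rw [e1, e2]
    intro z hz hz'
    have h1 := mt_pc h 5 z hz hz'
    have h2 := pc_six 0 hz'
    rw [h1.1, h1.2]
    exact h2
  · have e2 : ((m + 1) % 6).toNat = (m % 6).toNat + 1 := by omega
    unfold pz
    rw [e2]
    exact mt_pc h _

lemma five_fourths_le_bet : 5 / 4 ≤ bet := by
  by_contra h
  push Not at h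
  have h1 := bet_cube
  have h2 := bet_pos
  have : bet ^ 3 < (5 / 4) ^ 3 := by gcongr
  norm_num at this
  linarith

lemma t0_ge {t₀ : ℝ} (h0 : 0 < t₀) (h1 : t₀ < 9 / 20) (h2 : ‖uu t₀‖ = bet) : 1 / 5 ≤ t₀ := by
  have hnt : ‖(t₀ : ℂ)‖ = t₀ := by rw [Complex.norm_real, Real.norm_eq_abs, abs_of_pos h0]
  have h3 := norm_uu_sub_taylor (z := (t₀ : ℂ)) (by rw [hnt]; linarith) 0
  rw [Finset.range_zero, Finset.sum_empty, sub_zero, h2, hnt, pow_zero,
    le_div_iff₀ (by linarith)] at h3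
  have h4 := five_fourths_le_bet
  nlinarith

section global

variable {t₀ : ℝ}

/-- The number of the cell. -/
noncomputable def rd (t₀ : ℝ) (z : ℂ) : ℤ := round (z.re / (2 * t₀))

/-- First component of the global solution. -/
noncomputable def gu (t₀ : ℝ) (z : ℂ) : ℂ := (pz (rd t₀ z)).1 (z - 2 * (rd t₀ z) * t₀)

/-- Second component of the global solution. -/
noncomputable def gv (t₀ : ℝ) (z : ℂ) : ℂ := (pz (rd t₀ z)).2 (z - 2 * (rd t₀ z) * t₀)

lemma rd_spec (h0 : 0 < t₀) (z : ℂ) : |z.re - 2 * (rd t₀ z) * t₀| ≤ t₀ := by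
  have h := abs_sub_round (z.re / (2 * t₀))
  have e : z.re - 2 * (rd t₀ z) * t₀ = (2 * t₀) * (z.re / (2 * t₀) - round (z.re / (2 * t₀))) := by
    unfold rd
    field_simp
  rw [e, abs_mul, abs_of_pos (by positivity : 0 < 2 * t₀)]
  nlinarith

lemma shift_mem_bB {z : ℂ} {x : ℝ} (h1 : |z.im| < 1 / 5) (h2 : |z.re - x| < 9 / 20) :
    z - x ∈ bB := by
  rw [mem_bB, ← abs_of_nonneg (norm_nonneg _), ← abs_of_pos (by norm_num : (0 : ℝ) < 1 / 2),
    ← sq_lt_sq, ← Complex.normSq_eq_norm_sq, Complex.normSq_apply]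
  simp only [Complex.sub_re, Complex.ofReal_re, Complex.sub_im, Complex.ofReal_im, sub_zero]
  have a1 : z.im * z.im < (1 / 5) * (1 / 5) := by
    rw [← abs_mul_abs_self]
    exact mul_self_lt_mul_self (abs_nonneg _) h1
  have a2 : (z.re - x) * (z.re - x) < (9 / 20) * (9 / 20) := by
    rw [← abs_mul_abs_self]
    exact mul_self_lt_mul_self (abs_nonneg _) h2
  nlinarith

lemma cell_eq (h0 : 1 / 5 ≤ t₀) (h1 : t₀ < 9 / 20) (hM : Mt t₀ (pc 0) (pc 1)) {m : ℤ} {z : ℂ}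
    (hz : |z.im| < 1 / 5) (hm : |z.re - 2 * m * t₀| < 9 / 20) :
    gu t₀ z = (pz m).1 (z - 2 * m * t₀) ∧ gv t₀ z = (pz m).2 (z - 2 * m * t₀) := by
  have hk := rd_spec (by linarith : 0 < t₀) z
  set k : ℤ := rd t₀ z with hkdef
  have hkm : |(k : ℝ) - m| * (2 * t₀) < 9 / 20 + t₀ := by
    have e : ((k : ℝ) - m) * (2 * t₀) = (z.re - 2 * m * t₀) - (z.re - 2 * k * t₀) := by ring
    have e2 : |(k : ℝ) - m| * (2 * t₀) = |((k : ℝ) - m) * (2 * t₀)| := by
      rw [abs_mul, abs_of_pos (by linarith : 0 < 2 * t₀)]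
    rw [e2, e]
    have := abs_sub (z.re - 2 * m * t₀) (z.re - 2 * k * t₀)
    linarith
  have hkm2 : |(k : ℝ) - m| < 2 := by
    by_contra hcon
    push Not at hcon
    nlinarith
  have hkm3 : |k - m| < 2 := by exact_mod_cast hkm2
  rw [abs_lt] at hkm3
  have b1 : z - ((2 * m * t₀ : ℝ) : ℂ) ∈ bB := shift_mem_bB hz hm
  have b2 : z - ((2 * k * t₀ : ℝ) : ℂ) ∈ bB := shift_mem_bB hz (by linarith)
  push_cast at b1 b2
  have hcases : k = m ∨ k = m + 1 ∨ m = k + 1 := by omega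
  unfold gu gv
  rw [← hkdef]
  rcases hcases with h | h | h
  · rw [h]; exact ⟨rfl, rfl⟩
  · have e : z - 2 * (k : ℂ) * t₀ = z - 2 * (m : ℂ) * t₀ - 2 * t₀ := by
      rw [h]; push_cast; ring
    have h2 := mt_pz hM m (z - 2 * m * t₀) b1 (by rw [← e]; exact b2)
    rw [e, h]
    exact ⟨h2.1.symm, h2.2.symm⟩
  · have e : z - 2 * (m : ℂ) * t₀ = z - 2 * (k : ℂ) * t₀ - 2 * t₀ := by
      rw [h]; push_cast; ring
    have h2 := mt_pz hM k (z - 2 * k * t₀) b2 (by rw [← e]; exact b1)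
    rw [e, h]
    exact ⟨h2.1, h2.2⟩

lemma cell_eventually (h0 : 1 / 5 ≤ t₀) (h1 : t₀ < 9 / 20) (hM : Mt t₀ (pc 0) (pc 1)) {z : ℂ}
    (hz : z ∈ strip (1 / 5)) :
    (gu t₀ =ᶠ[𝓝 z] fun w => (pz (rd t₀ z)).1 (w - 2 * (rd t₀ z) * t₀)) ∧
    (gv t₀ =ᶠ[𝓝 z] fun w => (pz (rd t₀ z)).2 (w - 2 * (rd t₀ z) * t₀)) := by
  have h3 : ∀ᶠ w in 𝓝 z, |w.im| < 1 / 5 := (isOpen_strip (1 / 5)).mem_nhds hz
  have h4 : ∀ᶠ w : ℂ in 𝓝 z, |w.re - 2 * (rd t₀ z) * t₀| < 9 / 20 := by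
    have hc : Continuous (fun w : ℂ => |w.re - 2 * (rd t₀ z) * t₀|) := by fun_prop
    have hlt : |z.re - 2 * (rd t₀ z) * t₀| < 9 / 20 := by
      have := rd_spec (by linarith : 0 < t₀) z
      linarith
    exact (isOpen_lt hc continuous_const).mem_nhds hlt
  constructor
  · filter_upwards [h3, h4] with w a b using (cell_eq h0 h1 hM a b).1
  · filter_upwards [h3, h4] with w a b using (cell_eq h0 h1 hM a b).2

lemma arg_mem (h0 : 1 / 5 ≤ t₀) (h1 : t₀ < 9 / 20) {z : ℂ} (hz : z ∈ strip (1 / 5)) :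
    z - 2 * (rd t₀ z) * t₀ ∈ bB := by
  have h2 := rd_spec (by linarith : 0 < t₀) z
  have := shift_mem_bB (x := 2 * (rd t₀ z) * t₀) hz (by linarith)
  push_cast at this
  exact this

lemma hasDerivAt_gu (h0 : 1 / 5 ≤ t₀) (h1 : t₀ < 9 / 20) (hM : Mt t₀ (pc 0) (pc 1)) {z : ℂ}
    (hz : z ∈ strip (1 / 5)) : HasDerivAt (gu t₀) (gv t₀ z ^ 2) z := by
  have h2 := (sol_pz (rd t₀ z)).d1 _ (arg_mem h0 h1 hz)
  exact (h2.comp_sub_const z _).congr_of_eventuallyEq (cell_eventually h0 h1 hM hz).1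

lemma hasDerivAt_gv (h0 : 1 / 5 ≤ t₀) (h1 : t₀ < 9 / 20) (hM : Mt t₀ (pc 0) (pc 1)) {z : ℂ}
    (hz : z ∈ strip (1 / 5)) : HasDerivAt (gv t₀) (-(gu t₀ z ^ 2)) z := by
  have h2 := (sol_pz (rd t₀ z)).d2 _ (arg_mem h0 h1 hz)
  exact (h2.comp_sub_const z _).congr_of_eventuallyEq (cell_eventually h0 h1 hM hz).2

lemma gu_ne_zero (h0 : 1 / 5 ≤ t₀) (h1 : t₀ < 9 / 20) {z : ℂ} (hz : z ∈ strip (1 / 5)) :
    gu t₀ z ≠ 0 := (sol_pz (rd t₀ z)).n1 _ (arg_mem h0 h1 hz)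

lemma gu_periodic (h0 : 0 < t₀) (z : ℂ) : gu t₀ (z + 12 * t₀) = gu t₀ z := by
  have e1 : rd t₀ (z + 12 * t₀) = rd t₀ z + 6 := by
    unfold rd
    have : (z + 12 * (t₀ : ℂ)).re / (2 * t₀) = z.re / (2 * t₀) + 6 := by
      simp only [Complex.add_re, Complex.mul_re, Complex.re_ofNat, Complex.ofReal_re,
        Complex.im_ofNat, Complex.ofReal_im, mul_zero, sub_zero]
      field_simp
      ring
    rw [this]
    exact round_add_ofNat (z.re / (2 * t₀)) 6
  unfold gu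
  rw [e1]
  have e2 : pz (rd t₀ z + 6) = pz (rd t₀ z) := by
    unfold pz
    congr 2
    omega
  have e3 : z + 12 * (t₀ : ℂ) - 2 * ((rd t₀ z + 6 : ℤ) : ℂ) * t₀ = z - 2 * (rd t₀ z) * t₀ := by
    push_cast
    ring
  rw [e2, e3]

lemma gv_eq (h0 : 1 / 5 ≤ t₀) (h1 : t₀ < 9 / 20) (hM : Mt t₀ (pc 0) (pc 1)) {z : ℂ}
    (hz : z ∈ strip (1 / 5)) : gv t₀ z = gu t₀ (-z) := by
  have h00 : (0 : ℂ) ∈ strip (1 / 5) := by norm_num [strip]
  have hrd0 : rd t₀ 0 = 0 := by simp [rd]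
  have hu0 : gu t₀ 0 = pp := by
    unfold gu
    rw [hrd0]
    simp [pz, pc, uu_zero]
  have hv0 : gv t₀ 0 = pp := by
    unfold gv
    rw [hrd0]
    simp [pz, pc, uu_zero]
  have key := pair_unique (isOpen_strip (1 / 5)) (convex_strip (1 / 5)).isPreconnected
    (u := gu t₀) (v := gv t₀) (u₁ := fun z => gv t₀ (-z)) (v₁ := fun z => gu t₀ (-z))
    (fun z hz => hasDerivAt_gu h0 h1 hM hz) (fun z hz => hasDerivAt_gv h0 h1 hM hz)
    (fun z hz => by
      have h2 := hasDerivAt_gv h0 h1 hM (neg_mem_strip hz)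
      have := h2.comp z (_root_.hasDerivAt_neg z)
      simpa [Function.comp_def] using this)
    (fun z hz => by
      have h2 := hasDerivAt_gu h0 h1 hM (neg_mem_strip hz)
      have := h2.comp z (_root_.hasDerivAt_neg z)
      simpa [Function.comp_def] using this)
    h00 (by simp [hu0, hv0]) (by simp [hu0, hv0])
  exact (key z hz).2

end global

/-- **Existence of the unperturbed solution.** -/
theorem exists_unpert : ∃ (ρ m M : ℝ) (U : ℂ → ℂ), 0 < ρ ∧ ρ ≤ 1 ∧ 0 < m ∧ Unpert ρ m M U := by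
  obtain ⟨t₀, ht0, ht1, ht2, ht3⟩ := exists_t0
  have h5 := t0_ge ht0 ht1 ht2
  have hM := mt_zero ht0 ht1 ht2 ht3
  set T : ℝ := 12 * t₀ with hT
  have hT0 : 0 < T := by positivity
  have hT1 : T < 6 := by rw [hT]; linarith
  set U : ℂ → ℂ := fun z => T * gu t₀ (T * z) with hU
  have hmem : ∀ z ∈ strip (1 / 30), (T : ℂ) * z ∈ strip (1 / 5) := by
    intro z hz
    have hz' : |z.im| < 1 / 30 := hz
    show |((T : ℂ) * z).im| < 1 / 5
    rw [Complex.mul_im, Complex.ofReal_re, Complex.ofReal_im, zero_mul, add_zero, abs_mul,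
      abs_of_pos hT0]
    nlinarith [abs_nonneg z.im]
  have hder : ∀ z ∈ strip (1 / 30), HasDerivAt U (U (-z) ^ 2) z := by
    intro z hz
    have h1 := hasDerivAt_gu h5 ht1 hM (hmem z hz)
    have h2 : HasDerivAt (fun w : ℂ => (T : ℂ) * w) (T : ℂ) z := by
      simpa using (hasDerivAt_id z).const_mul (T : ℂ)
    have h3 := (h1.comp z h2).const_mul (T : ℂ)
    refine h3.congr_deriv ?_
    rw [gv_eq h5 ht1 hM (hmem z hz)]
    simp only [hU]
    rw [show (T : ℂ) * -z = -(T * z) by ring]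
    ring
  have hper : ∀ z, U (z + 1) = U z := by
    intro z
    simp only [hU]
    have : (T : ℂ) * (z + 1) = T * z + 12 * t₀ := by
      rw [hT]; push_cast; ring
    rw [this, gu_periodic ht0]
  have hper' : ∀ (n : ℤ) z, U (z + n) = U z := by
    intro n z
    have : Function.Periodic U 1 := hper
    simpa using this.int_mul n z
  have hne : ∀ z ∈ strip (1 / 30), U z ≠ 0 := by
    intro z hz
    exact mul_ne_zero (Complex.ofReal_ne_zero.mpr hT0.ne') (gu_ne_zero h5 ht1 (hmem z hz))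
  -- compactness
  set K : Set ℂ := Icc (0 : ℝ) 1 ×ℂ Icc (-(1 / 60) : ℝ) (1 / 60) with hK
  have hKc : IsCompact K := isCompact_Icc.reProdIm isCompact_Icc
  have hKs : K ⊆ strip (1 / 30) := by
    intro z hz
    rw [hK, Complex.mem_reProdIm] at hz
    have := abs_le.mpr hz.2
    show |z.im| < 1 / 30
    linarith
  have hcont : ContinuousOn (fun z => ‖U z‖) K := by
    intro z hz
    exact ((hder z (hKs hz)).continuousAt.norm).continuousWithinAt
  have hKne : K.Nonempty := ⟨0, by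
    rw [hK, Complex.mem_reProdIm]
    simp⟩
  obtain ⟨a, haK, ha⟩ := hKc.exists_isMinOn hKne hcont
  obtain ⟨b, hbK, hb⟩ := hKc.exists_isMaxOn hKne hcont
  have hred : ∀ z ∈ strip (1 / 60), ∃ w ∈ K, U w = U z := by
    intro z hz
    refine ⟨z + ((-⌊z.re⌋ : ℤ) : ℂ), ?_, hper' _ z⟩
    rw [hK, Complex.mem_reProdIm]
    have hz' : |z.im| < 1 / 60 := hz
    rw [abs_lt] at hz'
    refine ⟨?_, ?_⟩
    · simp only [Int.cast_neg, Complex.add_re, Complex.neg_re, Complex.intCast_re]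
      rw [← sub_eq_add_neg]
      exact ⟨by linarith [Int.floor_le z.re], by linarith [Int.lt_floor_add_one z.re]⟩
    · simp only [Int.cast_neg, Complex.add_im, Complex.neg_im, Complex.intCast_im, neg_zero,
        add_zero]
      exact ⟨by linarith, by linarith⟩
  have hsub : strip (1 / 60) ⊆ strip (1 / 30) := strip_mono (by norm_num)
  refine ⟨1 / 60, ‖U a‖, ‖U b‖, U, by norm_num, by norm_num,
    norm_pos_iff.mpr (hne a (hKs haK)), ?_⟩
  refine ⟨fun z hz => (hder z (hsub hz)).differentiableAt.differentiableWithinAt,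
    fun z _ => hper z, ?_, ?_, fun z hz => (hder z (hsub hz)).deriv⟩
  · intro z hz
    obtain ⟨w, hw, hwz⟩ := hred z hz
    rw [← hwz]
    exact ha hw
  · intro z hz
    obtain ⟨w, hw, hwz⟩ := hred z hz
    rw [← hwz]
    exact hb hw

end Pool.Agent.Herman
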